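import Pool.Agent.N811.SP.Asm2
import Pool.Agent.H384R3.SPk.Mix

set_option autoImplicit false

/-! Final forms with the sharp exponent. -/

namespace Pool.Agent.N811.SP

open Finset Pool.Agent.H384R3.SPk

/-- the critical exponent -/
theorem exists_crit2 {k n : ℕ} (hk : 3 ≤ k) (hn : 2 ≤ n) (hkn : 6 ≤ k + n) {β : ℝ}
    (h : (2 * k - 1 : ℝ) ≤ (n : ℝ) ^ β) :
    ∃ β₀ : ℝ, 0 < β₀ ∧ β₀ ≤ β ∧ ∃ σ, Good n β₀ (2 * k - 1) σ := by
  have hk2 : (3:ℝ) ≤ k := by exact_mod_cast hk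
  have hn2 : (2:ℝ) ≤ n := by exact_mod_cast hn
  have hc0 : (0:ℝ) < 2 * k - 1 := by linarith
  have hlog : 0 < Real.log n := Real.log_pos (by linarith)
  have hlk : 0 < Real.log (2 * k - 1) := Real.log_pos (by linarith)
  have hβ₀ : 0 < Real.log (2 * k - 1) / Real.log n := by positivity
  refine ⟨Real.log (2 * k - 1) / Real.log n, hβ₀, ?_, ?_⟩
  · rw [div_le_iff₀ hlog, ← Real.log_rpow (by linarith)]
    exact Real.log_le_log hc0 h
  · apply exists_good hk hn hkn hβ₀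
    rw [Real.rpow_def_of_pos (by linarith), mul_div_cancel₀ _ hlog.ne', Real.exp_log hc0]

/-- several sets -/
theorem family2 {k n : ℕ} (hk : 3 ≤ k) (hn : 2 ≤ n) (hkn : 6 ≤ k + n) {β : ℝ}
    (h : (2 * k - 1 : ℝ) ≤ (n : ℝ) ^ β)
    (A : Fin n → Finset ℤ) (hA : ∀ i, (A i).Nonempty) (hAp : ∀ i, ∀ a ∈ A i, 0 < a) :
    ∏ i, ((A i).card : ℝ) ^ ((k : ℝ) * (1 + β)) ≤
      (∏ i, ((sumset k (A i)).card : ℝ)) * ((prodset A).card : ℝ) ^ ((k : ℝ) * n * β) := by
  have hk1 : 1 ≤ k := by omega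
  have hn1 : 1 ≤ n := by omega
  have hn0 : (0:ℝ) < n := by exact_mod_cast (show 0 < n by omega)
  obtain ⟨β₀, hβ₀, hle, σ, hcrit⟩ := exists_crit2 hk hn hkn h
  have hm := main_R2 (by omega) hn hcrit A hA hAp
  have hR : ∀ i, 1 ≤ R k (A i) := fun i => one_le_R tC hk1 (hA i)
  have hR0 : ∀ i, 0 < R k (A i) := fun i => by have := hR i; linarith
  have hcard : ∀ i, (1:ℝ) ≤ (A i).card := fun i => by exact_mod_cast (hA i).card_pos
  have hPpos : (1:ℝ) ≤ (prodset A).card := by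
    have := card_le_prodset hn1 A hA hAp ⟨0, by omega⟩
    have h2 := (hA ⟨0, by omega⟩).card_pos
    exact_mod_cast (by omega : 1 ≤ (prodset A).card)
  set P : ℝ := ((prodset A).card : ℝ) with hP
  have h2 := Real.rpow_le_rpow (Finset.prod_nonneg fun i _ => by
    have := hR0 i; positivity) hm (show 0 ≤ (n:ℝ) * β₀ by positivity)
  rw [← Real.finsetProd_rpow _ _ (fun i _ => by have := hR0 i; positivity)] at h2
  have e1 : ∀ i ∈ (Finset.univ : Finset (Fin n)),
      ((((A i).card : ℝ) ^ (1 + β₀) / R k (A i)) ^ (1 / ((n : ℝ) * β₀))) ^ ((n:ℝ) * β₀) =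
        ((A i).card : ℝ) ^ (1 + β₀) / R k (A i) := by
    intro i _
    have := hR0 i
    rw [← Real.rpow_mul (by positivity)]
    have : 1 / ((n : ℝ) * β₀) * (n * β₀) = 1 := by field_simp
    rw [this, Real.rpow_one]
  rw [Finset.prod_congr rfl e1, Finset.prod_div_distrib, div_le_iff₀ (Finset.prod_pos fun i _ => hR0 i)] at h2
  have h3 : ∏ i, ((A i).card : ℝ) ^ (β - β₀) ≤ P ^ ((n:ℝ) * (β - β₀)) := by
    calc ∏ i, ((A i).card : ℝ) ^ (β - β₀) ≤ ∏ _i : Fin n, P ^ (β - β₀) := by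
          apply Finset.prod_le_prod
          · intro i _; have := hcard i; positivity
          · intro i _
            apply Real.rpow_le_rpow (by positivity) _ (by linarith)
            rw [hP]
            exact_mod_cast card_le_prodset hn1 A hA hAp i
      _ = _ := by
          rw [Finset.prod_const, Finset.card_univ, Fintype.card_fin, ← Real.rpow_natCast,
            ← Real.rpow_mul (by positivity), mul_comm]
  have h4 : ∏ i, ((A i).card : ℝ) ^ (1 + β) ≤ P ^ ((n:ℝ) * β) * ∏ i, R k (A i) := by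
    have e2 : ∏ i, ((A i).card : ℝ) ^ (1 + β) =
        (∏ i, ((A i).card : ℝ) ^ (1 + β₀)) * ∏ i, ((A i).card : ℝ) ^ (β - β₀) := by
      rw [← Finset.prod_mul_distrib]
      refine Finset.prod_congr rfl fun i _ => ?_
      have := hcard i
      rw [← Real.rpow_add (by linarith)]
      congr 1; ring
    have e3 : P ^ ((n:ℝ) * β) = P ^ ((n:ℝ) * β₀) * P ^ ((n:ℝ) * (β - β₀)) := by
      rw [← Real.rpow_add (by linarith)]; congr 1; ring
    rw [e2, e3]
    calc _ ≤ (P ^ ((n:ℝ) * β₀) * ∏ i, R k (A i)) * P ^ ((n:ℝ) * (β - β₀)) := by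
          apply mul_le_mul h2 h3
          · exact Finset.prod_nonneg fun i _ => by have := hcard i; positivity
          · have : 0 ≤ ∏ i, R k (A i) := Finset.prod_nonneg fun i _ => (hR0 i).le
            positivity
      _ = _ := by ring
  have h5 := pow_le_pow_left₀ (Finset.prod_nonneg fun i _ => by have := hcard i; positivity) h4 k
  rw [mul_pow, ← Finset.prod_pow, ← Finset.prod_pow] at h5
  have e4 : ∀ i ∈ (Finset.univ : Finset (Fin n)), (((A i).card : ℝ) ^ (1 + β)) ^ k =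
      ((A i).card : ℝ) ^ ((k : ℝ) * (1 + β)) := by
    intro i _
    have := hcard i
    rw [← Real.rpow_natCast, ← Real.rpow_mul (by linarith), mul_comm]
  rw [Finset.prod_congr rfl e4] at h5
  refine h5.trans ?_
  have e5 : (P ^ ((n:ℝ) * β)) ^ k = P ^ ((k : ℝ) * n * β) := by
    rw [← Real.rpow_natCast, ← Real.rpow_mul (by linarith)]; congr 1; ring
  rw [e5, mul_comm]
  apply mul_le_mul_of_nonneg_right _ (by positivity)
  apply Finset.prod_le_prod
  · intro i _; have := hR0 i; positivity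
  · intro i _; exact R_pow tC hk1 (hA i)

theorem single2 {k n : ℕ} (hk : 3 ≤ k) (hn : 2 ≤ n) (hkn : 6 ≤ k + n) {β : ℝ}
    (h : (2 * k - 1 : ℝ) ≤ (n : ℝ) ^ β)
    (A : Finset ℤ) (hA : A.Nonempty) (hAp : ∀ a ∈ A, 0 < a) :
    (A.card : ℝ) ^ ((k : ℝ) * (1 + β)) ≤
      ((sumset k A).card : ℝ) * ((prodset fun _ : Fin n => A).card : ℝ) ^ ((k : ℝ) * β) := by
  obtain ⟨β₀, hβ₀, hle, σ, hcrit⟩ := exists_crit2 hk hn hkn h
  have hm := main_pos2 (by omega) hn hcrit A hA hAp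
  have hcard : (1:ℝ) ≤ A.card := by exact_mod_cast hA.card_pos
  have hP : (A.card : ℝ) ≤ (prodset fun _ : Fin n => A).card := by
    exact_mod_cast card_le_prodset (by omega) (fun _ => A) (fun _ => hA) (fun _ => hAp) ⟨0, by omega⟩
  set P : ℝ := ((prodset fun _ : Fin n => A).card : ℝ)
  have hk0 : (0:ℝ) ≤ k := by positivity
  have e2 : (A.card : ℝ) ^ ((k : ℝ) * (1 + β)) =
      (A.card : ℝ) ^ ((k : ℝ) * (1 + β₀)) * (A.card : ℝ) ^ ((k : ℝ) * (β - β₀)) := by
    rw [← Real.rpow_add (by linarith)]; congr 1; ring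
  have e3 : P ^ ((k:ℝ) * β) = P ^ ((k:ℝ) * β₀) * P ^ ((k:ℝ) * (β - β₀)) := by
    rw [← Real.rpow_add (by linarith)]; congr 1; ring
  have h3 : (A.card : ℝ) ^ ((k : ℝ) * (β - β₀)) ≤ P ^ ((k:ℝ) * (β - β₀)) :=
    Real.rpow_le_rpow (by linarith) hP (mul_nonneg hk0 (by linarith))
  rw [e2, e3]
  calc _ ≤ (((sumset k A).card : ℝ) * P ^ ((k:ℝ) * β₀)) * P ^ ((k:ℝ) * (β - β₀)) := by
        apply mul_le_mul hm h3 (by positivity) (by positivity)
    _ = _ := by ring

/-- all finite sets of integers -/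
theorem single_all2 (hG : TaskG) {k n : ℕ} (hk : 3 ≤ k) (hn : 2 ≤ n) (hkn : 6 ≤ k + n)
    {β : ℝ} (hβ : 0 ≤ β) (h : (2 * k - 1 : ℝ) ≤ (n : ℝ) ^ β)
    (A : Finset ℤ) (hA : A.Nonempty) :
    (A.card : ℝ) ^ ((k : ℝ) * (1 + β)) ≤ 3 ^ ((k : ℝ) * (1 + β)) *
      (((sumset k A).card : ℝ) * ((prodset fun _ : Fin n => A).card : ℝ) ^ ((k : ℝ) * β)) := by
  have hk0 : (0:ℝ) ≤ k := by positivity
  by_cases h0 : A = {0}
  · have h1 : (1:ℝ) ≤ (sumset k A).card := by exact_mod_cast card_pos_sum k hA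
    have h2 : (1:ℝ) ≤ (prodset fun _ : Fin n => A).card := by exact_mod_cast card_pos_prod n hA
    have h3 : (1:ℝ) ≤ ((prodset fun _ : Fin n => A).card : ℝ) ^ ((k : ℝ) * β) :=
      Real.one_le_rpow h2 (by positivity)
    have h4 : (1:ℝ) ≤ 3 ^ ((k : ℝ) * (1 + β)) := Real.one_le_rpow (by norm_num) (by positivity)
    have h5 : (A.card : ℝ) ^ ((k : ℝ) * (1 + β)) = 1 := by
      rw [h0, Finset.card_singleton, Nat.cast_one, Real.one_rpow]
    rw [h5]
    exact one_le_mul_of_one_le_of_one_le h4 (one_le_mul_of_one_le_of_one_le h1 h3)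
  · obtain ⟨B, hB, hBp, hAB, hs, hp⟩ := hG A hA h0
    have hm := single2 hk hn hkn h B hB hBp
    have h1 : (A.card : ℝ) ≤ 3 * B.card := by exact_mod_cast hAB
    have h2 : (A.card : ℝ) ^ ((k : ℝ) * (1 + β)) ≤ (3 * B.card) ^ ((k : ℝ) * (1 + β)) :=
      Real.rpow_le_rpow (by positivity) h1 (by positivity)
    rw [Real.mul_rpow (by norm_num) (by positivity)] at h2
    refine h2.trans (mul_le_mul_of_nonneg_left (hm.trans ?_) (by positivity))
    have h3 : ((sumset k B).card : ℝ) ≤ (sumset k A).card := by exact_mod_cast hs k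
    have h4 : ((prodset fun _ : Fin n => B).card : ℝ) ≤ (prodset fun _ : Fin n => A).card := by
      exact_mod_cast hp n
    apply mul_le_mul h3 (Real.rpow_le_rpow (by positivity) h4 (by positivity)) (by positivity)
      (by positivity)

/-- explicit exponent for `max (|NA|, |A^N|)` -/
theorem max_all2 (hG : TaskG) (hH : TaskH) {k n : ℕ} (hk : 3 ≤ k) (hn : 2 ≤ n) (hkn : 6 ≤ k + n)
    (hle : k ≤ n) {β : ℝ} (hβ : 0 ≤ β) (h : (2 * k - 1 : ℝ) ≤ (n : ℝ) ^ β)
    (A : Finset ℤ) (hA : A.Nonempty) :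
    (A.card : ℝ) ^ ((k : ℝ) * (1 + β)) ≤ 3 ^ ((k : ℝ) * (1 + β)) *
      (max ((sumset n A).card : ℝ) ((prodset fun _ : Fin n => A).card : ℝ)) ^ (1 + (k : ℝ) * β) := by
  have hk0 : (0:ℝ) ≤ k := by positivity
  set X : ℝ := max ((sumset n A).card : ℝ) ((prodset fun _ : Fin n => A).card : ℝ) with hX
  have hX1 : (1:ℝ) ≤ X := le_max_of_le_left (by exact_mod_cast card_pos_sum n hA)
  by_cases h0 : A = {0}
  · have h4 : (1:ℝ) ≤ 3 ^ ((k : ℝ) * (1 + β)) := Real.one_le_rpow (by norm_num) (by positivity)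
    have h5 : (A.card : ℝ) ^ ((k : ℝ) * (1 + β)) = 1 := by
      rw [h0, Finset.card_singleton, Nat.cast_one, Real.one_rpow]
    rw [h5]
    exact one_le_mul_of_one_le_of_one_le h4 (Real.one_le_rpow hX1 (by positivity))
  · obtain ⟨B, hB, hBp, hAB, hs, hp⟩ := hG A hA h0
    have hm := single2 hk hn hkn h B hB hBp
    have h1 : (A.card : ℝ) ≤ 3 * B.card := by exact_mod_cast hAB
    have h2 : (A.card : ℝ) ^ ((k : ℝ) * (1 + β)) ≤ (3 * B.card) ^ ((k : ℝ) * (1 + β)) :=
      Real.rpow_le_rpow (by positivity) h1 (by positivity)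
    rw [Real.mul_rpow (by norm_num) (by positivity)] at h2
    refine h2.trans (mul_le_mul_of_nonneg_left (hm.trans ?_) (by positivity))
    have h3 : ((sumset k B).card : ℝ) ≤ X := by
      refine le_trans ?_ (le_max_left _ _)
      exact_mod_cast ((hH B hB hBp k n hle).1.trans (hs n))
    have h4 : ((prodset fun _ : Fin n => B).card : ℝ) ≤ X := by
      refine le_trans ?_ (le_max_right _ _)
      exact_mod_cast hp n
    calc _ ≤ X * X ^ ((k : ℝ) * β) := by
          apply mul_le_mul h3 (Real.rpow_le_rpow (by positivity) h4 (by positivity)) (by positivity)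
            (by linarith)
      _ = _ := by rw [Real.rpow_add (by linarith), Real.rpow_one]

/-- closed form of the exponent -/
theorem max_log (hG : TaskG) (hH : TaskH) {k N : ℕ} (hk : 3 ≤ k) (hle : k ≤ N)
    (A : Finset ℤ) (hA : A.Nonempty) :
    ((A.card : ℝ) / 3) ^ ((k : ℝ) * Real.log ((2 * k - 1) * N) /
        (Real.log N + k * Real.log (2 * k - 1))) ≤
      max ((sumset N A).card : ℝ) ((prodset fun _ : Fin N => A).card : ℝ) := by
  have hk2 : (3:ℝ) ≤ k := by exact_mod_cast hk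
  have hN3 : (3:ℝ) ≤ N := by exact_mod_cast (hk.trans hle)
  have hc0 : (0:ℝ) < 2 * k - 1 := by linarith
  have hlog : 0 < Real.log N := Real.log_pos (by linarith)
  have hlk : 0 < Real.log (2 * k - 1) := Real.log_pos (by linarith)
  set β := Real.log (2 * k - 1) / Real.log N with hβ
  have hβ0 : 0 < β := by positivity
  have hcond : (2 * k - 1 : ℝ) ≤ (N : ℝ) ^ β := by
    rw [Real.rpow_def_of_pos (by linarith), hβ, mul_div_cancel₀ _ hlog.ne', Real.exp_log hc0]
  have hm := max_all2 hG hH hk (by omega) (by omega) hle hβ0.le hcond A hA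
  set X : ℝ := max ((sumset N A).card : ℝ) ((prodset fun _ : Fin N => A).card : ℝ) with hX
  have hX0 : 0 ≤ X := le_max_of_le_left (by positivity)
  have hden : 0 < 1 + (k:ℝ) * β := by positivity
  have h9 : ((A.card : ℝ) / 3) ^ ((k:ℝ) * (1 + β)) ≤ X ^ (1 + (k:ℝ) * β) := by
    rw [Real.div_rpow (by positivity) (by norm_num), div_le_iff₀ (by positivity),
      mul_comm (X ^ (1 + (k:ℝ) * β))]
    exact hm
  have h10 := Real.rpow_le_rpow (by positivity) h9 (show (0:ℝ) ≤ 1 / (1 + (k:ℝ) * β) by positivity)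
  rw [← Real.rpow_mul (by positivity), ← Real.rpow_mul hX0, mul_one_div_cancel hden.ne',
    Real.rpow_one] at h10
  have e3 : (k:ℝ) * (1 + β) * (1 / (1 + (k:ℝ) * β)) =
      (k : ℝ) * Real.log ((2 * k - 1) * N) / (Real.log N + k * Real.log (2 * k - 1)) := by
    rw [Real.log_mul hc0.ne' (by linarith), hβ]
    field_simp
    ring
  rwa [e3] at h10

/-- sums of dilates of different sets against the product set -/
theorem mix2 (hI : TaskI) {k m : ℕ} (hk : 3 ≤ k) (hm : 1 ≤ m) {β : ℝ}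
    (h : (2 * k - 1 : ℝ) ≤ (m * k : ℝ) ^ β)
    (l : Fin k → ℤ) (hl : ∀ i, l i ≠ 0) (A : Fin k → Finset ℤ)
    (hA : ∀ i, (A i).Nonempty) (hAp : ∀ i, ∀ a ∈ A i, 0 < a) :
    ∏ i, ((A i).card : ℝ) ^ (1 + β) ≤
      ((dilsum l A).card : ℝ) * ((prodset2 m A).card : ℝ) ^ ((k : ℝ) * β) := by
  have hk1 : 1 ≤ k := by omega
  have hmk3 : 3 ≤ m * k := by nlinarith
  have hmk : 2 ≤ m * k := by omega
  have hmk1 : 1 ≤ m * k := by omega
  have hm0 : (0:ℝ) < m := by exact_mod_cast hm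
  have hk0 : (0:ℝ) < k := by exact_mod_cast hk1
  have h' : (2 * k - 1 : ℝ) ≤ ((m * k : ℕ) : ℝ) ^ β := by
    push_cast; exact h
  obtain ⟨β₀, hβ₀, hle, σ, hcrit⟩ := exists_crit2 hk hmk (by omega) h'
  have hmR := main_R2 (by omega) hmk hcrit
    (fun j : Fin (m * k) => A (finProdFinEquiv.symm j).2) (fun j => hA _) (fun j => hAp _)
  have hcp : ∀ i : Fin k, (A i).card ≤ (prodset2 m A).card := by
    intro i
    rw [prodset2_eq]
    have := card_le_prodset hmk1 (fun j : Fin (m * k) => A (finProdFinEquiv.symm j).2)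
      (fun j => hA _) (fun j => hAp _) (finProdFinEquiv (⟨0, hm⟩, i))
    simpa using this
  rw [← prodset2_eq] at hmR
  have hR : ∀ i, 1 ≤ R k (A i) := fun i => one_le_R tC hk1 (hA i)
  have hR0 : ∀ i, 0 < R k (A i) := fun i => by have := hR i; linarith
  have hcard : ∀ i, (1:ℝ) ≤ (A i).card := fun i => by exact_mod_cast (hA i).card_pos
  set P : ℝ := ((prodset2 m A).card : ℝ) with hP
  have hP1 : 1 ≤ P := (hcard ⟨0, by omega⟩).trans (by rw [hP]; exact_mod_cast hcp ⟨0, by omega⟩)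
  -- regroup the product
  have hg : ∀ g : Fin k → ℝ, ∏ j : Fin (m * k), g (finProdFinEquiv.symm j).2 = (∏ i, g i) ^ m := by
    intro g
    rw [Equiv.prod_comp finProdFinEquiv.symm (fun p : Fin m × Fin k => g p.2),
      Fintype.prod_prod_type]
    simp
  have e0 := hg (fun i => (((A i).card : ℝ) ^ (1 + β₀) / R k (A i)) ^ (1 / (((m * k : ℕ) : ℝ) * β₀)))
  have e00 : ∏ i : Fin k, (((A i).card : ℝ) ^ (1 + β₀) / R k (A i)) ^ (1 / (((m * k : ℕ) : ℝ) * β₀)) =
      (∏ i : Fin k, ((A i).card : ℝ) ^ (1 + β₀) / R k (A i)) ^ (1 / (((m * k : ℕ) : ℝ) * β₀)) :=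
    Real.finsetProd_rpow Finset.univ _ (fun i _ => by have := hR0 i; positivity) _
  rw [e00, ← Real.rpow_natCast,
      ← Real.rpow_mul (Finset.prod_nonneg fun i _ => by have := hR0 i; positivity)] at e0
  have e0' : 1 / (((m * k : ℕ) : ℝ) * β₀) * m = 1 / ((k : ℝ) * β₀) := by
    push_cast
    field_simp
  rw [e0'] at e0
  rw [e0] at hmR
  have hT : 0 ≤ ∏ i, ((A i).card : ℝ) ^ (1 + β₀) / R k (A i) :=
    Finset.prod_nonneg fun i _ => by have := hR0 i; positivity
  have h2 := Real.rpow_le_rpow (Real.rpow_nonneg hT _) hmR (mul_nonneg hk0.le hβ₀.le)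
  rw [← Real.rpow_mul hT] at h2
  have e1 : 1 / ((k : ℝ) * β₀) * (k * β₀) = 1 := by field_simp
  rw [e1, Real.rpow_one, Finset.prod_div_distrib,
    div_le_iff₀ (Finset.prod_pos fun i _ => hR0 i)] at h2
  have h3 : ∏ i, ((A i).card : ℝ) ^ (β - β₀) ≤ P ^ ((k:ℝ) * (β - β₀)) := by
    calc ∏ i, ((A i).card : ℝ) ^ (β - β₀) ≤ ∏ _i : Fin k, P ^ (β - β₀) := by
          apply Finset.prod_le_prod
          · intro i _; have := hcard i; positivity
          · intro i _
            apply Real.rpow_le_rpow (by positivity) _ (by linarith)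
            rw [hP]
            exact_mod_cast hcp i
      _ = _ := by
          rw [Finset.prod_const, Finset.card_univ, Fintype.card_fin, ← Real.rpow_natCast,
            ← Real.rpow_mul (by positivity), mul_comm]
  have e2 : ∏ i, ((A i).card : ℝ) ^ (1 + β) =
      (∏ i, ((A i).card : ℝ) ^ (1 + β₀)) * ∏ i, ((A i).card : ℝ) ^ (β - β₀) := by
    rw [← Finset.prod_mul_distrib]
    refine Finset.prod_congr rfl fun i _ => ?_
    have := hcard i
    rw [← Real.rpow_add (by linarith)]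
    congr 1; ring
  have e3 : P ^ ((k:ℝ) * β) = P ^ ((k:ℝ) * β₀) * P ^ ((k:ℝ) * (β - β₀)) := by
    rw [← Real.rpow_add (by linarith)]; congr 1; ring
  have hRm := R_mix hI hk1 hl hA
  have hRpos : 0 ≤ ∏ i, R k (A i) := Finset.prod_nonneg fun i _ => (hR0 i).le
  rw [e2, e3]
  calc _ ≤ (P ^ ((k:ℝ) * β₀) * ∏ i, R k (A i)) * P ^ ((k:ℝ) * (β - β₀)) := by
        apply mul_le_mul h2 h3
        · exact Finset.prod_nonneg fun i _ => by have := hcard i; positivity
        · positivity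
    _ ≤ (P ^ ((k:ℝ) * β₀) * ((dilsum l A).card : ℝ)) * P ^ ((k:ℝ) * (β - β₀)) := by
        gcongr
    _ = _ := by ring

end Pool.Agent.N811.SP
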