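import Pool.Agent.N811.SP.Conc

set_option autoImplicit false

/-! The functional `R`: sharp recursion. -/

namespace Pool.Agent.N811.SP

open Finset MeasureTheory Pool.Agent.H384R3.SPk

lemma G_pos_N (hC : TaskC) {k : ℕ} (hk : 1 ≤ k) {A : Finset ℤ} {g : ℤ →₀ ℝ} {ρ : ℝ}
    (g1 : ∀ n, 0 ≤ g n) (g2 : g.support ⊆ A) (g3 : ∑ n ∈ A, g n = ρ) (hρ : 0 < ρ) :
    0 < N k g := by
  have h := hC k hk A g g2 g1
  rw [g3] at h
  have h1 : 0 < M k g := by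
    by_contra hcon
    push Not at hcon
    have h2 : M k g = 0 := le_antisymm hcon (M_nonneg k g)
    rw [h2, mul_zero] at h
    have : 0 < ρ ^ (2 * k) := by positivity
    linarith
  unfold N
  positivity

theorem G_comb2 (hB : TaskB) (hC : TaskC) {k m : ℕ} (hk : 2 ≤ k) (hm : 1 ≤ m)
    {A A₀ A₁ : Finset ℤ} (h0 : A₀ ⊆ A) (h1 : A₁ ⊆ A)
    (hm0 : ∀ n ∈ A₀, ¬ (m : ℤ) ∣ n) (hm1 : ∀ n ∈ A₁, (m : ℤ) ∣ n) {ρ σ : ℝ}
    (hρ : G k A₁ ρ) (hρ0 : 0 < ρ) (hσ : G k A₀ σ) {x₀ : ℝ} (hx₀ : 0 < x₀) :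
    G k A (ρ / ca (2 * k - 1) x₀ + σ / cb (2 * k - 1) x₀) := by
  have hk1' : 1 ≤ k := by omega
  obtain ⟨g, g1, g2, g3, g4⟩ := G_sub h1 hρ
  obtain ⟨f, f1, f2, f3, f4⟩ := G_sub h0 hσ
  obtain ⟨g, g1, g2', g3', g4⟩ := hρ
  obtain ⟨f, f1, f2', f3', f4⟩ := hσ
  have hk1 : (2:ℝ) ≤ k := by exact_mod_cast hk
  set K : ℝ := 2 * k - 1 with hK
  have hK2 : 2 ≤ K := by rw [hK]; linarith
  set a := ca K x₀ with ha
  set b := cb K x₀ with hb
  have ha0 : 0 < a := ca_pos hK2 hx₀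
  have hb0 : 0 < b := cb_pos hK2 hx₀
  have sg : ∑ n ∈ A, g n = ρ := by
    rw [← g3']
    exact (Finset.sum_subset h1 fun n _ hn => by
      by_contra hne
      exact hn (g2' (Finsupp.mem_support_iff.2 hne))).symm
  have sf : ∑ n ∈ A, f n = σ := by
    rw [← f3']
    exact (Finset.sum_subset h0 fun n _ hn => by
      by_contra hne
      exact hn (f2' (Finsupp.mem_support_iff.2 hne))).symm
  have hNg : 0 < N k g := G_pos_N hC hk1' g1 g2' g3' hρ0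
  refine ⟨(1 / a) • g + (1 / b) • f, fun n => ?_, ?_, ?_, ?_⟩
  · rw [Finsupp.add_apply, Finsupp.smul_apply, Finsupp.smul_apply, smul_eq_mul, smul_eq_mul]
    have := g1 n
    have := f1 n
    positivity
  · intro n hn
    rcases Finset.mem_union.1 (Finsupp.support_add hn) with h | h
    · exact h1 (g2' (Finsupp.support_smul h))
    · exact h0 (f2' (Finsupp.support_smul h))
  · simp only [Finsupp.add_apply, Finsupp.smul_apply, smul_eq_mul]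
    rw [Finset.sum_add_distrib, ← Finset.mul_sum, ← Finset.mul_sum, sg, sf]
    ring
  · have e1 : N k ((1 / a) • g) = (1 / a) ^ 2 * N k g := N_smul k hk1' _ _
    have e2 : N k ((1 / b) • f) = (1 / b) ^ 2 * N k f := N_smul k hk1' _ _
    have := twoblock hk hm hB ((1 / a) • g) ((1 / b) • f)
      (fun n hn => hm1 n (g2' (Finsupp.support_smul hn)))
      (fun n hn => hm0 n (f2' (Finsupp.support_smul hn))) (by rw [e1]; positivity) hx₀
    rw [e1, e2, ← ha, ← hb] at this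
    have e3 : a * ((1 / a) ^ 2 * N k g) + b * ((1 / b) ^ 2 * N k f) = N k g / a + N k f / b := by
      field_simp
    rw [e3] at this
    have h5 : N k f / b ≤ σ / b := by gcongr
    have h6 : N k g / a ≤ ρ / a := by gcongr
    linarith

theorem R_comb2 (hB : TaskB) (hC : TaskC) {k m : ℕ} (hk : 2 ≤ k) (hm : 1 ≤ m)
    {A A₀ A₁ : Finset ℤ} (h0 : A₀ ⊆ A) (h1 : A₁ ⊆ A) (hne : A₁.Nonempty)
    (hm0 : ∀ n ∈ A₀, ¬ (m : ℤ) ∣ n) (hm1 : ∀ n ∈ A₁, (m : ℤ) ∣ n)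
    {x₀ : ℝ} (hx₀ : 0 < x₀) :
    R k A₁ / ca (2 * k - 1) x₀ + R k A₀ / cb (2 * k - 1) x₀ ≤ R k A := by
  have hk1' : 1 ≤ k := by omega
  have hk1 : (2:ℝ) ≤ k := by exact_mod_cast hk
  set K : ℝ := 2 * k - 1 with hK
  have hK2 : 2 ≤ K := by rw [hK]; linarith
  have key0 : ∀ ρ σ, 0 < ρ → G k A₁ ρ → G k A₀ σ → ρ / ca K x₀ + σ / cb K x₀ ≤ R k A := by
    intro ρ σ hρ0 hρ hσ
    exact le_csSup (bdd hC hk1' A) (G_comb2 hB hC hk hm h0 h1 hm0 hm1 hρ hρ0 hσ hx₀)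
  set a := ca K x₀ with ha
  set b := cb K x₀ with hb
  have ha0 : 0 < a := ca_pos hK2 hx₀
  have hb0 : 0 < b := cb_pos hK2 hx₀
  have key : ∀ σ, G k A₀ σ → R k A₁ ≤ (R k A - σ / b) * a := by
    intro σ hσ
    have hall : ∀ ρ, 0 < ρ → G k A₁ ρ → ρ ≤ (R k A - σ / b) * a := by
      intro ρ hρ0 hρ
      have := key0 ρ σ hρ0 hρ hσ
      have h3 : ρ / a ≤ R k A - σ / b := by linarith
      rwa [div_le_iff₀ ha0] at h3
    apply csSup_le ⟨0, G_zero k hk1' A₁⟩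
    intro ρ hρ
    rcases (G_nonneg hρ).eq_or_lt with h | h
    · obtain ⟨a₁, ha₁⟩ := hne
      have := hall 1 one_pos (G_one k ha₁)
      rw [← h]; linarith
    · exact hall ρ h hρ
  have h2 : R k A₀ ≤ (R k A - R k A₁ / a) * b := by
    apply csSup_le ⟨0, G_zero k hk1' A₀⟩
    intro σ hσ
    have h3 := key σ hσ
    rw [← div_le_iff₀ ha0] at h3
    have h4 : σ / b ≤ R k A - R k A₁ / a := by linarith
    rwa [div_le_iff₀ hb0] at h4
  rw [← div_le_iff₀ hb0] at h2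
  linarith

end Pool.Agent.N811.SP
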