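import Pool.Agent.N811.SP.Real5
import Pool.Agent.N811.SP.Func2
import Pool.Agent.H384R3.SPk.Final

set_option autoImplicit false

/-! Assembly: the energy form of the main theorem with the sharp exponent. -/

namespace Pool.Agent.N811.SP

open Finset Pool.Agent.H384R3.SPk
open scoped Topology

lemma phi_lt {n β K σ : ℝ} (h : Good n β K σ) (hK2 : 2 ≤ K) {φ Q : ℝ} (hQ0 : 0 < Q) (hQ1 : Q < 1)
    (hφ : ∀ x, 0 < x → φ / ca K x + Q / cb K x ≤ 1) {u : ℝ} (hu0 : 0 ≤ u) (hu1 : u ≤ 1) :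
    φ * (1 - u) ^ (n * β) ≤ (1 - (Q * u ^ β) ^ (1 / (1 + β))) ^ (1 + β) := by
  have hs0 : 0 < √Q := Real.sqrt_pos.2 hQ0
  have hs1 : √Q < 1 := by rw [Real.sqrt_lt' one_pos]; simpa using hQ1
  have hx₀ : 0 < Real.artanh (√Q) := Real.artanh_pos ⟨hs0, hs1⟩
  have hT : Real.tanh (Real.artanh (√Q)) = √Q := Real.tanh_artanh ⟨by linarith, hs1⟩
  set x₀ := Real.artanh (√Q)
  refine le_trans ?_ (key h hK2 hQ0 hQ1 hx₀ hT hu0 hu1)
  apply mul_le_mul_of_nonneg_right _ (Real.rpow_nonneg (by linarith) _)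
  have h1 := hφ x₀ hx₀
  have ha := ca_pos hK2 hx₀
  have hb := cb_pos hK2 hx₀
  have h2 : φ / ca K x₀ ≤ 1 - Q / cb K x₀ := by linarith
  rw [div_le_iff₀ ha] at h2
  have h3 := ca_cb hK2 hx₀
  rw [hT, Real.sq_sqrt hQ0.le] at h3
  linarith

lemma phi_le {n β K σ : ℝ} (h : Good n β K σ) (hK2 : 2 ≤ K) {φ Q : ℝ} (hQ0 : 0 < Q) (hQ1 : Q ≤ 1)
    (hφ : ∀ x, 0 < x → φ / ca K x + Q / cb K x ≤ 1) {u : ℝ} (hu0 : 0 ≤ u) (hu1 : u ≤ 1) :
    φ * (1 - u) ^ (n * β) ≤ (1 - (Q * u ^ β) ^ (1 / (1 + β))) ^ (1 + β) := by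
  rcases hQ1.eq_or_lt with rfl | hlt
  · have hβ := h.hβ
    have hev : ∀ Q' ∈ Set.Ioo (0:ℝ) 1,
        φ * (1 - u) ^ (n * β) ≤ (1 - (Q' * u ^ β) ^ (1 / (1 + β))) ^ (1 + β) := by
      intro Q' hQ'
      refine phi_lt h hK2 hQ'.1 hQ'.2 (fun x hx => ?_) hu0 hu1
      have hb := cb_pos hK2 hx
      have h1 := hφ x hx
      have h2 : Q' / cb K x ≤ 1 / cb K x := by gcongr; exact hQ'.2.le
      linarith
    have hc : ContinuousAt (fun Q' : ℝ => (1 - (Q' * u ^ β) ^ (1 / (1 + β))) ^ (1 + β)) 1 := by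
      refine ContinuousAt.rpow_const ?_ (Or.inr (by linarith))
      refine continuousAt_const.sub ?_
      exact ContinuousAt.rpow_const (by fun_prop) (Or.inr (by positivity))
    have ht : Filter.Tendsto (fun Q' : ℝ => (1 - (Q' * u ^ β) ^ (1 / (1 + β))) ^ (1 + β))
        (𝓝[<] 1) (𝓝 ((1 - (1 * u ^ β) ^ (1 / (1 + β))) ^ (1 + β))) :=
      hc.tendsto.mono_left nhdsWithin_le_nhds
    refine ge_of_tendsto ht ?_
    filter_upwards [Ioo_mem_nhdsLT (zero_lt_one' ℝ)] with Q' hQ'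
    exact hev Q' hQ'
  · exact phi_lt h hK2 hQ0 hlt hφ hu0 hu1

/-- one step of the induction -/
theorem os2 {n : ℕ} (hn : 2 ≤ n) {β K σ : ℝ} (h : Good n β K σ) (hK2 : 2 ≤ K)
    {a₀ a' R₀ R' ρ : ℝ}
    (ha₀ : 0 < a₀) (ha' : 0 < a') (hR₀ : 0 < R₀) (hR' : 0 < R')
    (h1 : R₀ ≤ ρ) (h2 : ∀ x, 0 < x → R' / ca K x + R₀ / cb K x ≤ ρ) :
    q n β (a₀ + a') ρ ^ n ≤ q n β a₀ R₀ ^ n + q n β a' R' * q n β (a₀ + a') ρ ^ (n - 1) := by
  have hβ := h.hβ
  have hρ : 0 < ρ := lt_of_lt_of_le hR₀ h1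
  have ha : 0 < a₀ + a' := by linarith
  have hn1 : 1 ≤ n := by omega
  have hn0 : (0:ℝ) < n := by exact_mod_cast (show 0 < n by omega)
  set a := a₀ + a' with hadef
  set p := q n β a ρ with hp
  have hp0 : 0 < p := q_pos n β ha hρ
  set x := a₀ / a with hx
  have hx0 : 0 < x := by positivity
  have hx1 : 1 - x = a' / a := by rw [hx]; field_simp; rw [hadef]; ring
  have hx1' : 0 < 1 - x := by rw [hx1]; positivity
  set Q := R₀ / ρ with hQ
  have hQ0 : 0 < Q := by positivity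
  have hQ1 : Q ≤ 1 := by rw [hQ, div_le_one hρ]; exact h1
  set φ := R' / ρ with hφ
  have hφ0 : 0 < φ := by positivity
  set u := (x ^ (1 + β) / Q) ^ (1 / β) with hu
  have hu0 : 0 < u := by positivity
  have hp₀ : q n β a₀ R₀ ^ n = u * p ^ n := by
    rw [q_pow n hn1 hβ ha₀ hR₀, hp, q_pow n hn1 hβ ha hρ, hu, ← Real.mul_rpow (by positivity) (by positivity)]
    congr 1
    rw [hx, hQ, Real.div_rpow ha₀.le ha.le]
    field_simp
  set v := q n β a' R' / p with hv
  have hv0 : 0 < v := div_pos (q_pos n β ha' hR') hp0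
  have hvp : (1 - x) ^ (1 + β) / φ = v ^ ((n:ℝ) * β) := by
    rw [hv, Real.div_rpow (q_nonneg n β ha'.le hR'.le) hp0.le, q_rpow n hn1 hβ ha' hR', hp,
      q_rpow n hn1 hβ ha hρ, hx1, Real.div_rpow ha'.le ha.le, hφ]
    field_simp
  have key : 1 ≤ u + v := by
    rcases le_or_gt 1 u with hu1 | hu1
    · linarith
    · have hK := phi_le h hK2 (φ := φ) hQ0 hQ1 (fun x hx => by
        have h3 := h2 x hx
        have h4 : φ / ca K x + Q / cb K x = (R' / ca K x + R₀ / cb K x) / ρ := by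
          rw [hφ, hQ]
          have := (ca_pos hK2 hx).ne'
          have := (cb_pos hK2 hx).ne'
          field_simp
        rw [h4, div_le_one hρ]
        exact h3) hu0.le hu1.le
      have hxu : (Q * u ^ β) ^ (1 / (1 + β)) = x := by
        rw [hu, ← Real.rpow_mul (by positivity)]
        have : 1 / β * β = 1 := by field_simp
        rw [this, Real.rpow_one]
        have : Q * (x ^ (1 + β) / Q) = x ^ (1 + β) := by field_simp
        rw [this, ← Real.rpow_mul hx0.le]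
        have : (1 + β) * (1 / (1 + β)) = 1 := by field_simp
        rw [this, Real.rpow_one]
      rw [hxu] at hK
      have h4 : (1 - u) ^ ((n:ℝ) * β) ≤ v ^ ((n:ℝ) * β) := by
        rw [← hvp, le_div_iff₀ hφ0]; linarith
      have h5 : 1 - u ≤ v := by
        by_contra hcon
        push Not at hcon
        have := Real.rpow_lt_rpow hv0.le hcon (show 0 < (n:ℝ) * β by positivity)
        linarith
      linarith
  rw [hp₀]
  have e : q n β a' R' * p ^ (n - 1) = v * p ^ n := by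
    rw [hv]
    have : p ^ n = p * p ^ (n - 1) := by
      rw [← pow_succ']; congr 1; omega
    rw [this]
    field_simp
  rw [e]
  nlinarith [pow_pos hp0 n]

/-- the energy form of the main theorem for several sets -/
theorem main_R2 {k n : ℕ} (hk : 2 ≤ k) (hn : 2 ≤ n) {β σ : ℝ} (h : Good n β (2 * k - 1) σ)
    (A : Fin n → Finset ℤ) (hAn : ∀ i, (A i).Nonempty) (hAp : ∀ i, ∀ a ∈ A i, 0 < a) :
    ∏ i, (((A i).card : ℝ) ^ (1 + β) / R k (A i)) ^ (1 / ((n : ℝ) * β)) ≤
      ((prodset A).card : ℝ) := by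
  have hβ := h.hβ
  have hk1 : 1 ≤ k := by omega
  have hn1 : 1 ≤ n := by omega
  have hk2 : (2:ℝ) ≤ k := by exact_mod_cast hk
  have hK2 : (2:ℝ) ≤ 2 * k - 1 := by linarith
  apply taskD n hn1 (fun A => (((A).card : ℝ) ^ (1 + β) / R k (A)) ^ (1 / ((n : ℝ) * β)))
  · intro A
    exact q_nonneg n β (Nat.cast_nonneg _) (R_nonneg tC hk1 A)
  · intro p A A₀ A' j hp hA0 hne0 hne' hdisj hun hv0 hv'
    have hcard : (A.card : ℝ) = A₀.card + A'.card := by
      rw [← hun, Finset.card_union_of_disjoint hdisj]; push_cast; ring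
    have s0 : A₀ ⊆ A := by rw [← hun]; exact Finset.subset_union_left
    have s1 : A' ⊆ A := by rw [← hun]; exact Finset.subset_union_right
    have r0 := one_le_R tC hk1 hne0
    have r1 := one_le_R tC hk1 hne'
    have hR0 : R k A₀ ≤ R k A := R_sub tC hk1 s0
    have : Fact p.Prime := ⟨hp⟩
    have hcomb : ∀ x, 0 < x → R k A' / ca (2 * k - 1) x + R k A₀ / cb (2 * k - 1) x ≤ R k A :=
      fun x hx => R_comb2 tB tC (k := k) (m := p ^ (j + 1)) hk (Nat.one_le_pow _ _ hp.pos) s0 s1 hne'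
      (by
        intro n hn hdvd
        have hpos := hA0 n (s0 hn)
        have := (padicValInt_dvd_iff (p := p) (j + 1) n).1 (by exact_mod_cast hdvd)
        rcases this with h | h
        · omega
        · rw [hv0 n hn] at h; omega)
      (by
        intro n hn
        have h := (padicValInt_dvd_iff (p := p) (j + 1) n).2 (Or.inr (hv' n hn))
        exact_mod_cast h) hx
    have := os2 hn h hK2 (a₀ := (A₀.card : ℝ)) (a' := (A'.card : ℝ))
      (by exact_mod_cast hne0.card_pos) (by exact_mod_cast hne'.card_pos)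
      (by linarith) (by linarith) hR0 hcomb
    rw [← hcard] at this
    exact this
  · intro a ha
    have h1 := one_le_R tC hk1 (Finset.singleton_nonempty a)
    have : (({a} : Finset ℤ).card : ℝ) ^ (1 + β) / R k {a} ≤ 1 := by
      rw [Finset.card_singleton, Nat.cast_one, Real.one_rpow, div_le_one (by linarith)]
      exact h1
    have h0 : 0 ≤ (({a} : Finset ℤ).card : ℝ) ^ (1 + β) / R k {a} :=
      div_nonneg (Real.rpow_nonneg (Nat.cast_nonneg _) _) (by linarith)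
    exact Real.rpow_le_one h0 this (by positivity)
  · exact hAn
  · exact hAp

/-- main theorem for one set of positive integers -/
theorem main_pos2 {k n : ℕ} (hk : 2 ≤ k) (hn : 2 ≤ n) {β σ : ℝ} (hgood : Good n β (2 * k - 1) σ)
    (A : Finset ℤ) (hAn : A.Nonempty) (hAp : ∀ a ∈ A, 0 < a) :
    (A.card : ℝ) ^ ((k : ℝ) * (1 + β)) ≤
      ((sumset k A).card : ℝ) * ((prodset fun _ : Fin n => A).card : ℝ) ^ ((k : ℝ) * β) := by
  have hβ := hgood.hβ
  have hk1 : 1 ≤ k := by omega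
  have hn1 : 1 ≤ n := by omega
  have h := main_R2 hk hn hgood (fun _ => A) (fun _ => hAn) (fun _ => hAp)
  have hR := one_le_R tC hk1 hAn
  have hR0 : 0 < R k A := by linarith
  have hcard : (0:ℝ) < A.card := by exact_mod_cast hAn.card_pos
  rw [Finset.prod_const, Finset.card_univ, Fintype.card_fin] at h
  change q n β (A.card : ℝ) (R k A) ^ n ≤ _ at h
  rw [q_pow n hn1 hβ hcard hR0] at h
  have h2 := Real.rpow_le_rpow (by positivity) h hβ.le
  rw [← Real.rpow_mul (by positivity)] at h2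
  have e : 1 / β * β = 1 := by field_simp
  rw [e, Real.rpow_one, div_le_iff₀ hR0] at h2
  have h3 := pow_le_pow_left₀ (by positivity) h2 k
  have h4 := R_pow tC hk1 hAn
  calc (A.card : ℝ) ^ ((k : ℝ) * (1 + β)) = ((A.card : ℝ) ^ (1 + β)) ^ k := by
        rw [← Real.rpow_natCast, ← Real.rpow_mul hcard.le, mul_comm]
    _ ≤ _ := h3
    _ = R k A ^ k * ((prodset fun _ : Fin n => A).card : ℝ) ^ ((k : ℝ) * β) := by
        rw [mul_pow, mul_comm, ← Real.rpow_natCast (((prodset fun _ : Fin n => A).card : ℝ) ^ β),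
          ← Real.rpow_mul (by positivity), mul_comm β]
    _ ≤ _ := by
        apply mul_le_mul_of_nonneg_right h4 (by positivity)

end Pool.Agent.N811.SP
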