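import Pool.Agent.N811.SP.Cosh

set_option autoImplicit false

/-! The `log cosh` bound is a lower envelope of linear inequalities. -/

namespace Pool.Agent.N811.SP

open Finset MeasureTheory Pool.Agent.H384R3.SPk

lemma hasDerivAt_tanh (x : ℝ) : HasDerivAt Real.tanh (1 - Real.tanh x ^ 2) x := by
  have e : Real.tanh = fun x => Real.sinh x / Real.cosh x := by
    funext x; exact Real.tanh_eq_sinh_div_cosh x
  have hc := (Real.cosh_pos x).ne'
  have := (Real.hasDerivAt_sinh x).div (Real.hasDerivAt_cosh x) hc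
  rw [e]
  refine this.congr_deriv ?_
  simp only
  field_simp

lemma tanh_pos {x : ℝ} (hx : 0 < x) : 0 < Real.tanh x := by
  rw [Real.tanh_eq_sinh_div_cosh]
  exact div_pos (Real.sinh_pos_iff.2 hx) (Real.cosh_pos x)

/-- `W x = 1 + log cosh x / K` -/
noncomputable def W (K x : ℝ) : ℝ := 1 + Real.log (Real.cosh x) / K

noncomputable def Dx (K x : ℝ) : ℝ := W K x - x * Real.tanh x / K

noncomputable def ca (K x : ℝ) : ℝ := W K x * Dx K x

noncomputable def cb (K x : ℝ) : ℝ := K * (W K x * Real.tanh x / x)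

lemma one_le_W {K : ℝ} (hK : 0 < K) (x : ℝ) : 1 ≤ W K x := by
  unfold W
  have : 0 ≤ Real.log (Real.cosh x) / K :=
    div_nonneg (Real.log_nonneg (Real.one_le_cosh x)) hK.le
  linarith

lemma hasDerivAt_W (K x : ℝ) : HasDerivAt (W K) (Real.tanh x / K) x := by
  have := (((Real.hasDerivAt_cosh x).log (Real.cosh_pos x).ne').div_const K).const_add 1
  rw [← Real.tanh_eq_sinh_div_cosh] at this
  exact this

noncomputable def Xi (K x : ℝ) : ℝ :=
  W K x * Real.tanh x - x * (Real.tanh x ^ 2 / K + W K x * (1 - Real.tanh x ^ 2))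

lemma hasDerivAt_Xi (K x : ℝ) : HasDerivAt (Xi K)
    (x * Real.tanh x * (1 - Real.tanh x ^ 2) * (2 * W K x - 3 / K)) x := by
  have hT := hasDerivAt_tanh x
  have hW := hasDerivAt_W K x
  have hT2 : HasDerivAt (fun x => Real.tanh x ^ 2) (2 * Real.tanh x * (1 - Real.tanh x ^ 2)) x := by
    refine (hT.pow 2).congr_deriv ?_
    norm_num
  have h1 := hW.mul hT
  have h2 := (hT2.div_const K).add (hW.mul (hT2.const_sub 1))
  have h3 := h1.sub ((hasDerivAt_id x).mul h2)
  refine h3.congr_deriv ?_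
  simp only [id, Pi.mul_apply, Pi.add_apply]
  ring

lemma Xi_nonneg {K : ℝ} (hK : 2 ≤ K) {x : ℝ} (hx : 0 ≤ x) : 0 ≤ Xi K x := by
  have hm : MonotoneOn (Xi K) (Set.Ici 0) := by
    refine monotoneOn_of_deriv_nonneg (convex_Ici 0)
      (fun s _ => (hasDerivAt_Xi K s).continuousAt.continuousWithinAt)
      (fun s _ => (hasDerivAt_Xi K s).differentiableAt.differentiableWithinAt) fun s hs => ?_
    rw [interior_Ici] at hs
    rw [(hasDerivAt_Xi K s).deriv]
    have h1 := tanh_pos hs
    have h2 := Real.tanh_sq_lt_one s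
    have h3 := one_le_W (by linarith : 0 < K) s
    have h4 : 3 / K ≤ 3 / 2 := by gcongr
    have hs' : 0 < s := hs
    have h5 : 0 < 1 - Real.tanh s ^ 2 := by linarith
    have h6 : 0 ≤ 2 * W K s - 3 / K := by linarith
    positivity
  have := hm (Set.mem_Ici.2 le_rfl) (Set.mem_Ici.2 hx) hx
  have e : Xi K 0 = 0 := by simp [Xi]
  linarith

lemma Dx_pos {K : ℝ} (hK : 2 ≤ K) {x : ℝ} (hx : 0 < x) : 0 < Dx K x := by
  have h := Xi_nonneg hK hx.le
  have h1 := tanh_pos hx
  have h2 := Real.tanh_sq_lt_one x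
  have h3 := one_le_W (by linarith : 0 < K) x
  unfold Xi at h
  unfold Dx
  have h4 : 0 < x * (W K x * (1 - Real.tanh x ^ 2)) := by
    have : 0 < 1 - Real.tanh x ^ 2 := by linarith
    positivity
  have h5 : 0 < Real.tanh x * (W K x - x * Real.tanh x / K) := by
    have e : Real.tanh x * (W K x - x * Real.tanh x / K) =
      W K x * Real.tanh x - x * (Real.tanh x ^ 2 / K) := by ring
    rw [e]
    nlinarith
  exact (pos_iff_pos_of_mul_pos h5).1 h1

lemma ca_pos {K : ℝ} (hK : 2 ≤ K) {x : ℝ} (hx : 0 < x) : 0 < ca K x :=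
  mul_pos (by linarith [one_le_W (by linarith : 0 < K) x]) (Dx_pos hK hx)

lemma cb_pos {K : ℝ} (hK : 2 ≤ K) {x : ℝ} (hx : 0 < x) : 0 < cb K x := by
  have h1 := tanh_pos hx
  have h3 := one_le_W (by linarith : 0 < K) x
  unfold cb
  have : 0 < K := by linarith
  positivity

/-- slope function -/
lemma slope_anti {K : ℝ} (hK : 2 ≤ K) :
    AntitoneOn (fun x => W K x * Real.tanh x / x) (Set.Ioi 0) := by
  have hd : ∀ x : ℝ, 0 < x → HasDerivAt (fun x => W K x * Real.tanh x / x) (-(Xi K x) / x ^ 2) x := by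
    intro x hx
    have := ((hasDerivAt_W K x).mul (hasDerivAt_tanh x)).div (hasDerivAt_id x) hx.ne'
    refine this.congr_deriv ?_
    simp only [id, Pi.mul_apply, Xi]
    ring
  refine antitoneOn_of_deriv_nonpos (convex_Ioi 0)
      (fun s hs => (hd s hs).continuousAt.continuousWithinAt) ?_ fun s hs => ?_
  · intro s hs
    rw [interior_Ioi] at hs
    exact (hd s hs).differentiableAt.differentiableWithinAt
  · rw [interior_Ioi] at hs
    rw [(hd s hs).deriv]
    exact div_nonpos_of_nonpos_of_nonneg (by linarith [Xi_nonneg hK (le_of_lt hs)]) (by positivity)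

theorem lin {K : ℝ} (hK : 2 ≤ K) {x₀ x : ℝ} (hx₀ : 0 < x₀) (hx : 0 ≤ x) :
    W K x ^ 2 ≤ ca K x₀ + cb K x₀ * (x / K) ^ 2 := by
  have hK0 : 0 < K := by linarith
  set b := W K x₀ * Real.tanh x₀ / x₀ with hb
  set φ : ℝ → ℝ := fun x => b / K * x ^ 2 - W K x ^ 2 with hφ
  have dφ : ∀ x, HasDerivAt φ (2 / K * (b * x - W K x * Real.tanh x)) x := by
    intro x
    have h1 : HasDerivAt (fun x => b / K * x ^ 2) (b / K * (2 * x)) x := by
      have := (hasDerivAt_pow 2 x).const_mul (b / K)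
      simpa using this
    have h2 : HasDerivAt (fun x => W K x ^ 2) (2 * W K x * (Real.tanh x / K)) x := by
      refine ((hasDerivAt_W K x).pow 2).congr_deriv ?_
      norm_num
    refine (h1.sub h2).congr_deriv ?_
    ring
  have hsl := slope_anti hK
  have key : φ x₀ ≤ φ x := by
    rcases le_total x x₀ with h | h
    · have ha : AntitoneOn φ (Set.Icc 0 x₀) := by
        refine antitoneOn_of_deriv_nonpos (convex_Icc 0 x₀)
          (fun s _ => (dφ s).continuousAt.continuousWithinAt)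
          (fun s _ => (dφ s).differentiableAt.differentiableWithinAt) fun s hs => ?_
        rw [interior_Icc] at hs
        rw [(dφ s).deriv]
        have h3 := hsl (Set.mem_Ioi.2 hs.1) (Set.mem_Ioi.2 hx₀) hs.2.le
        simp only at h3
        rw [← hb, le_div_iff₀ hs.1] at h3
        exact mul_nonpos_of_nonneg_of_nonpos (by positivity) (by linarith)
      exact ha ⟨hx, h⟩ ⟨hx₀.le, le_rfl⟩ h
    · have ha : MonotoneOn φ (Set.Ici x₀) := by
        refine monotoneOn_of_deriv_nonneg (convex_Ici x₀)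
          (fun s _ => (dφ s).continuousAt.continuousWithinAt)
          (fun s _ => (dφ s).differentiableAt.differentiableWithinAt) fun s hs => ?_
        rw [interior_Ici] at hs
        rw [(dφ s).deriv]
        have hs0 : 0 < s := lt_trans hx₀ hs
        have h3 := hsl (Set.mem_Ioi.2 hx₀) (Set.mem_Ioi.2 hs0) (le_of_lt hs)
        simp only at h3
        rw [← hb, div_le_iff₀ hs0] at h3
        exact mul_nonneg (by positivity) (by linarith)
      exact ha (Set.mem_Ici.2 le_rfl) (Set.mem_Ici.2 h) h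
  simp only [hφ] at key
  have e1 : cb K x₀ * (x / K) ^ 2 = b / K * x ^ 2 := by
    rw [cb, ← hb]; field_simp
  have e2 : ca K x₀ = W K x₀ ^ 2 - b / K * x₀ ^ 2 := by
    rw [ca, Dx, hb]; field_simp
  rw [e1, e2]
  linarith

/-- the two block inequality, linear form -/
theorem twoblock {k m : ℕ} (hk : 2 ≤ k) (hm : 1 ≤ m) (hB : TaskB) (g f : ℤ →₀ ℝ)
    (hg : ∀ n ∈ g.support, (m : ℤ) ∣ n) (hf : ∀ n ∈ f.support, ¬ (m : ℤ) ∣ n)
    (hpos : 0 < N k g) {x₀ : ℝ} (hx₀ : 0 < x₀) :
    N k (g + f) ≤ ca (2 * k - 1) x₀ * N k g + cb (2 * k - 1) x₀ * N k f := by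
  have h := twoblock_cosh hk hm hB g f hg hf hpos
  have hk2 : (2:ℝ) ≤ k := by exact_mod_cast hk
  set K : ℝ := 2 * k - 1 with hK
  have hK0 : 0 < K := by rw [hK]; linarith
  have hl := lin (K := K) (by rw [hK]; linarith) hx₀
    (x := K * √(N k f / N k g)) (by positivity)
  have e1 : (K * √(N k f / N k g) / K) ^ 2 = N k f / N k g := by
    rw [mul_div_cancel_left₀ _ hK0.ne', Real.sq_sqrt (div_nonneg (N_nonneg k f) hpos.le)]
  rw [e1] at hl
  change N k (g + f) ≤ N k g * W K (K * √(N k f / N k g)) ^ 2 at h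
  have h2 := mul_le_mul_of_nonneg_left hl hpos.le
  have e2 : N k g * (ca K x₀ + cb K x₀ * (N k f / N k g)) = ca K x₀ * N k g + cb K x₀ * N k f := by
    field_simp
  rw [e2] at h2
  exact h.trans h2

/-- optimal choice of the parameter -/
lemma ca_cb {K : ℝ} (hK : 2 ≤ K) {x : ℝ} (hx : 0 < x) :
    ca K x * (1 - Real.tanh x ^ 2 / cb K x) = Dx K x ^ 2 := by
  have h1 := tanh_pos hx
  have h3 : 0 < W K x := by linarith [one_le_W (by linarith : 0 < K) x]
  have hK0 : 0 < K := by linarith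
  unfold ca cb Dx
  field_simp

end Pool.Agent.N811.SP
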