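import Pool.Agent.N811.SP.Deriv

set_option autoImplicit false

/-! Comparison: `‖g + f‖ ≤ ‖g‖ (1 + log cosh (K ‖f‖ / ‖g‖) / K)`, `K = 2 k - 1`. -/

namespace Pool.Agent.N811.SP

open Finset MeasureTheory Pool.Agent.H384R3.SPk

lemma cosh_cmp {C C1 C2 : ℝ → ℝ} (h1 : ∀ s, HasDerivAt C (C1 s) s)
    (h2 : ∀ s, HasDerivAt C1 (C2 s) s) (h0 : C 0 = 1) (h00 : C1 0 = 0) {μ : ℝ}
    (h : ∀ s, 0 < s → C2 s ≤ μ ^ 2 * C s) : C 1 ≤ Real.cosh μ := by
  have hm : ∀ s : ℝ, HasDerivAt (fun s : ℝ => μ * s) μ s := by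
    intro s; simpa using (hasDerivAt_id s).const_mul μ
  have hc : ∀ s : ℝ, HasDerivAt (fun s => Real.cosh (μ * s)) (Real.sinh (μ * s) * μ) s :=
    fun s => (hm s).cosh
  have hs : ∀ s : ℝ, HasDerivAt (fun s => Real.sinh (μ * s)) (Real.cosh (μ * s) * μ) s :=
    fun s => (hm s).sinh
  set φ : ℝ → ℝ := fun s => C1 s * Real.cosh (μ * s) - μ * (C s * Real.sinh (μ * s)) with hφ
  have dφ : ∀ s, HasDerivAt φ ((C2 s - μ ^ 2 * C s) * Real.cosh (μ * s)) s := by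
    intro s
    have := ((h2 s).mul (hc s)).sub (((h1 s).mul (hs s)).const_mul μ)
    refine this.congr_deriv ?_
    ring
  have aφ : AntitoneOn φ (Set.Ici 0) := by
    refine antitoneOn_of_deriv_nonpos (convex_Ici 0)
      (fun s _ => (dφ s).continuousAt.continuousWithinAt)
      (fun s _ => (dφ s).differentiableAt.differentiableWithinAt) fun s hs' => ?_
    rw [interior_Ici] at hs'
    rw [(dφ s).deriv]
    exact mul_nonpos_of_nonpos_of_nonneg (by linarith [h s hs']) (Real.cosh_pos _).le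
  have hφ0 : ∀ s, 0 ≤ s → φ s ≤ 0 := by
    intro s hs'
    have := aφ (Set.mem_Ici.2 le_rfl) (Set.mem_Ici.2 hs') hs'
    have e : φ 0 = 0 := by simp [hφ, h00]
    linarith
  set ψ : ℝ → ℝ := fun s => C s / Real.cosh (μ * s) with hψ
  have dψ : ∀ s, HasDerivAt ψ (φ s / Real.cosh (μ * s) ^ 2) s := by
    intro s
    have := (h1 s).div (hc s) (Real.cosh_pos _).ne'
    refine this.congr_deriv ?_
    rw [hφ]
    congr 1
    ring
  have aψ : AntitoneOn ψ (Set.Ici 0) := by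
    refine antitoneOn_of_deriv_nonpos (convex_Ici 0)
      (fun s _ => (dψ s).continuousAt.continuousWithinAt)
      (fun s _ => (dψ s).differentiableAt.differentiableWithinAt) fun s hs' => ?_
    rw [interior_Ici] at hs'
    rw [(dψ s).deriv]
    exact div_nonpos_of_nonpos_of_nonneg (hφ0 s (le_of_lt hs')) (by positivity)
  have := aψ (Set.mem_Ici.2 le_rfl) (Set.mem_Ici.2 zero_le_one) zero_le_one
  simp only [hψ, h0, mul_zero, Real.cosh_zero, mul_one, div_one] at this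
  rwa [div_le_one (Real.cosh_pos _)] at this

/-- the main comparison, abstract form -/
lemma nu_bound {k : ℕ} (hk : 2 ≤ k) {H H1 H2 : ℝ → ℝ} {Fn : ℝ}
    (h1 : ∀ s, HasDerivAt H (H1 s) s) (h2 : ∀ s, HasDerivAt H1 (H2 s) s)
    (hpos : 0 < H 0) (hmin : ∀ s, H 0 ≤ H s) (hF : 0 ≤ Fn)
    (b2 : ∀ s, H2 s ≤ 2 * k * (2 * k - 1) * ((H s ^ ((1:ℝ) / k)) ^ (k - 1) * Fn))
    (b1 : ∀ s, H1 s ^ 2 ≤ 4 * k ^ 2 * (H s * ((H s ^ ((1:ℝ) / k)) ^ (k - 1) * Fn))) :
    H 1 ^ ((1:ℝ) / k) ≤ H 0 ^ ((1:ℝ) / k) *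
      (1 + Real.log (Real.cosh ((2 * k - 1) * √(Fn / H 0 ^ ((1:ℝ) / k)))) / (2 * k - 1)) ^ 2 := by
  have hk2 : (2:ℝ) ≤ k := by exact_mod_cast hk
  have hk0 : (0:ℝ) < k := by linarith
  set K : ℝ := 2 * k - 1 with hK
  have hK0 : 0 < K := by rw [hK]; linarith
  have hH : ∀ s, 0 < H s := fun s => lt_of_lt_of_le hpos (hmin s)
  set ν : ℝ → ℝ := fun s => Real.exp (Real.log (H s) / (2 * k)) with hν
  have hν0 : ∀ s, 0 < ν s := fun s => Real.exp_pos _
  have hn : ∀ s, H s ^ ((1:ℝ) / k) = ν s ^ 2 := by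
    intro s
    rw [Real.rpow_def_of_pos (hH s), hν, ← Real.exp_nat_mul]
    congr 1
    push_cast
    field_simp
  have hnk : ∀ s, ν s ^ 2 * (ν s ^ 2) ^ (k - 1) = H s := by
    intro s
    rw [← pow_succ', Nat.sub_add_cancel (by omega : 1 ≤ k), ← hn, ← Real.rpow_natCast,
      ← Real.rpow_mul (hH s).le, one_div_mul_cancel hk0.ne', Real.rpow_one]
  have hνm : ∀ s, ν 0 ≤ ν s := by
    intro s
    apply Real.exp_le_exp.2
    apply div_le_div_of_nonneg_right _ (by positivity)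
    exact Real.log_le_log hpos (hmin s)
  set L1 : ℝ → ℝ := fun s => H1 s / (H s) / (2 * k) with hL1
  set L2 : ℝ → ℝ := fun s => (H2 s * H s - H1 s * H1 s) / (H s) ^ 2 / (2 * k) with hL2
  have dL : ∀ s, HasDerivAt L1 (L2 s) s := fun s => ((h2 s).div (h1 s) (hH s).ne').div_const _
  have dν : ∀ s, HasDerivAt ν (ν s * L1 s) s := by
    intro s
    exact (((h1 s).log (hH s).ne').div_const (2 * (k:ℝ))).exp
  set C : ℝ → ℝ := fun s => Real.exp (K * (ν s / ν 0 - 1)) with hC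
  have hC0 : ∀ s, 0 < C s := fun s => Real.exp_pos _
  set C1 : ℝ → ℝ := fun s => C s * (K / ν 0 * (ν s * L1 s)) with hC1
  set C2 : ℝ → ℝ := fun s => (C s * (K / ν 0 * (ν s * L1 s))) * (K / ν 0 * (ν s * L1 s)) +
    C s * (K / ν 0 * (ν s * L1 s * L1 s + ν s * L2 s)) with hC2
  have dC : ∀ s, HasDerivAt C (C1 s) s := by
    intro s
    have h3 := (((dν s).div_const (ν 0)).sub_const 1).const_mul K
    have h4 := h3.exp
    refine h4.congr_deriv ?_
    simp only [hC1, hC]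
    ring
  have dC1 : ∀ s, HasDerivAt C1 (C2 s) s := by
    intro s
    exact (dC s).mul (((dν s).mul (dL s)).const_mul (K / ν 0))
  have hH10 : H1 0 = 0 := by
    have : IsLocalMin H 0 := Filter.Eventually.of_forall fun s => hmin s
    exact this.hasDerivAt_eq_zero (h1 0)
  set μ : ℝ := K * √(Fn / ν 0 ^ 2) with hμ
  have hμ2 : μ ^ 2 = K ^ 2 * (Fn / ν 0 ^ 2) := by
    rw [hμ, mul_pow, Real.sq_sqrt (by positivity)]
  have hC2le : ∀ s, C2 s ≤ μ ^ 2 * C s := by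
    intro s
    have hs := hH s
    have hv := hν0 s
    have hv0 := hν0 0
    have main : K * (ν s ^ 2 * L1 s ^ 2) + ν 0 * (ν s * (L1 s ^ 2 + L2 s)) ≤ K * Fn := by
      have b1' := b1 s
      have b2' := b2 s
      rw [hn] at b1' b2'
      have e1 : (ν s ^ 2) ^ (k - 1) = H s / ν s ^ 2 := by
        rw [eq_div_iff (by positivity), mul_comm]; exact hnk s
      rw [e1] at b1' b2'
      have t1 : K * (ν s ^ 2 * L1 s ^ 2) ≤ K * Fn := by
        apply mul_le_mul_of_nonneg_left _ hK0.le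
        have e2 : ν s ^ 2 * L1 s ^ 2 = ν s ^ 2 / (4 * k ^ 2 * H s ^ 2) * H1 s ^ 2 := by
          rw [hL1]; field_simp; ring
        rw [e2]
        calc ν s ^ 2 / (4 * k ^ 2 * H s ^ 2) * H1 s ^ 2 ≤
            ν s ^ 2 / (4 * k ^ 2 * H s ^ 2) * (4 * k ^ 2 * (H s * (H s / ν s ^ 2 * Fn))) :=
              mul_le_mul_of_nonneg_left b1' (by positivity)
          _ = Fn := by field_simp
      rcases le_or_gt (L1 s ^ 2 + L2 s) 0 with hneg | hnn
      · have : ν 0 * (ν s * (L1 s ^ 2 + L2 s)) ≤ 0 :=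
          mul_nonpos_of_nonneg_of_nonpos hv0.le (mul_nonpos_of_nonneg_of_nonpos hv.le hneg)
        linarith
      · have h5 : ν 0 * (ν s * (L1 s ^ 2 + L2 s)) ≤ ν s * (ν s * (L1 s ^ 2 + L2 s)) :=
          mul_le_mul_of_nonneg_right (hνm s) (by positivity)
        have h6 : K * (ν s ^ 2 * L1 s ^ 2) + ν s * (ν s * (L1 s ^ 2 + L2 s)) =
            ν s ^ 2 / (2 * k * H s) * H2 s := by
          rw [hL1, hL2, hK]; field_simp; ring
        have h7 : ν s ^ 2 / (2 * k * H s) * H2 s ≤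
            ν s ^ 2 / (2 * k * H s) * (2 * k * K * (H s / ν s ^ 2 * Fn)) :=
          mul_le_mul_of_nonneg_left b2' (by positivity)
        have h8 : ν s ^ 2 / (2 * k * H s) * (2 * k * K * (H s / ν s ^ 2 * Fn)) = K * Fn := by
          field_simp
        linarith
    have e3 : C2 s = C s * (K / ν 0 ^ 2 * (K * (ν s ^ 2 * L1 s ^ 2) +
        ν 0 * (ν s * (L1 s ^ 2 + L2 s)))) := by
      rw [hC2]; field_simp
    rw [e3, hμ2, mul_comm (K ^ 2 * (Fn / ν 0 ^ 2))]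
    apply mul_le_mul_of_nonneg_left _ (hC0 s).le
    calc K / ν 0 ^ 2 * (K * (ν s ^ 2 * L1 s ^ 2) + ν 0 * (ν s * (L1 s ^ 2 + L2 s))) ≤
        K / ν 0 ^ 2 * (K * Fn) := mul_le_mul_of_nonneg_left main (by positivity)
      _ = _ := by ring
  have hfin := cosh_cmp dC dC1 (by simp [hC, div_self (hν0 0).ne']) (by simp [hC1, hL1, hH10])
    (fun s _ => hC2le s)
  rw [hn, hn]
  have h9 : K * (ν 1 / ν 0 - 1) ≤ Real.log (Real.cosh μ) := by
    rw [Real.le_log_iff_exp_le (Real.cosh_pos _)]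
    exact hfin
  have h10 : ν 1 ≤ ν 0 * (1 + Real.log (Real.cosh μ) / K) := by
    have h11 : ν 1 / ν 0 - 1 ≤ Real.log (Real.cosh μ) / K := by
      rw [le_div_iff₀ hK0]; linarith
    have h12 : ν 1 / ν 0 ≤ 1 + Real.log (Real.cosh μ) / K := by linarith
    rw [div_le_iff₀ (hν0 0)] at h12
    linarith
  calc ν 1 ^ 2 ≤ (ν 0 * (1 + Real.log (Real.cosh μ) / K)) ^ 2 :=
        pow_le_pow_left₀ (hν0 1).le h10 2
    _ = _ := by rw [mul_pow]

/-- the two block inequality, `log cosh` form -/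
theorem twoblock_cosh {k m : ℕ} (hk : 2 ≤ k) (hm : 1 ≤ m) (hB : TaskB) (g f : ℤ →₀ ℝ)
    (hg : ∀ n ∈ g.support, (m : ℤ) ∣ n) (hf : ∀ n ∈ f.support, ¬ (m : ℤ) ∣ n)
    (hpos : 0 < N k g) :
    N k (g + f) ≤ N k g *
      (1 + Real.log (Real.cosh ((2 * k - 1) * √(N k f / N k g))) / (2 * k - 1)) ^ 2 := by
  have hk1 : 1 ≤ k := by omega
  have hk0 : (0:ℝ) < k := by exact_mod_cast hk1
  have hMpos : 0 < M k g := by rw [← N_pow k hk1]; positivity
  have e0 : M k (g + (0:ℝ) • f) = M k g := by simp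
  have e1 : M k (g + (1:ℝ) • f) = M k (g + f) := by simp
  have hmin : ∀ s : ℝ, M k (g + (0:ℝ) • f) ≤ M k (g + s • f) := by
    intro s
    rw [e0, ← N_pow k hk1 g, ← N_pow k hk1 (g + s • f)]
    exact pow_le_pow_left₀ hpos.le
      (hB k m hk1 hm g (s • f) hg (fun n hn => hf n (Finsupp.support_smul hn))) k
  have := nu_bound hk (H := fun s => M k (g + s • f)) (H1 := H1 k g f) (H2 := H2 k g f)
    (Fn := N k f) (deriv_H k g f) (deriv_H1 k g f) (by simpa using hMpos) hmin (N_nonneg k f)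
    (fun s => H2_le hk g f s) (fun s => H1_sq hk g f s)
  simp only [e0, e1] at this
  exact this

end Pool.Agent.N811.SP
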