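import Pool.Agent.H384R3.SPk.Func
import Pool.Agent.H218R3.SPkA
import Pool.Agent.H224R3.SPk.TaskI

set_option autoImplicit false

/-! Derivatives of `s ↦ ‖g + s f‖_{2k}^{2k}` and the sharp bounds for the first two. -/

namespace Pool.Agent.N811.SP

open Finset MeasureTheory Pool.Agent.H384R3.SPk
open scoped Topology

/-- derivative of a parametric integral, everything continuous -/
lemma hasDerivAt_intg {F F' : ℝ → ℝ → ℝ} (hF : ∀ s, Continuous (F s))
    (hF' : Continuous (Function.uncurry F'))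
    (h : ∀ s x, HasDerivAt (fun s => F s x) (F' s x) s) (s : ℝ) :
    HasDerivAt (fun s => ∫ x in (0:ℝ)..1, F s x) (∫ x in (0:ℝ)..1, F' s x) s := by
  obtain ⟨C, hC⟩ := ((isCompact_Icc.prod isCompact_Icc :
    IsCompact (Set.Icc (s-1) (s+1) ×ˢ Set.Icc (0:ℝ) 1))).exists_bound_of_continuousOn
      hF'.continuousOn
  have hF's : Continuous (F' s) := hF'.comp (by fun_prop : Continuous fun x : ℝ => (s, x))
  refine (intervalIntegral.hasDerivAt_integral_of_dominated_loc_of_deriv_le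
    (s := Set.Icc (s-1) (s+1)) (bound := fun _ => C) ?_ ?_ ?_ ?_ ?_ ?_ ?_).2
  · exact Icc_mem_nhds (by linarith) (by linarith)
  · exact Filter.Eventually.of_forall fun x => (hF x).aestronglyMeasurable
  · exact (hF s).intervalIntegrable _ _
  · exact hF's.aestronglyMeasurable
  · refine Filter.Eventually.of_forall fun t ht x hx => ?_
    refine hC (x, t) ⟨hx, ?_⟩
    rw [Set.uIoc_of_le zero_le_one] at ht
    exact ⟨ht.1.le, ht.2⟩
  · exact intervalIntegrable_const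
  · exact Filter.Eventually.of_forall fun t _ x _ => h x t

/-- `q = |g|^2 + 2 s Re(g conj f) + s^2 |f|^2` -/
noncomputable def b (g f : ℤ →₀ ℝ) (x : ℝ) : ℝ := (F g x * (starRingEnd ℂ) (F f x)).re

noncomputable def qf (g f : ℤ →₀ ℝ) (s x : ℝ) : ℝ :=
  ‖F g x‖ ^ 2 + 2 * s * b g f x + s ^ 2 * ‖F f x‖ ^ 2

lemma q_eq (g f : ℤ →₀ ℝ) (s x : ℝ) : ‖F (g + s • f) x‖ ^ 2 = qf g f s x := by
  rw [Pool.Agent.H218R3.SPkA.F_add, F_smul, qf, b, ← Complex.normSq_eq_norm_sq,
    ← Complex.normSq_eq_norm_sq, ← Complex.normSq_eq_norm_sq, Complex.normSq_add, map_mul, map_mul,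
    Complex.conj_ofReal, Complex.normSq_ofReal]
  have : (F g x * (↑s * (starRingEnd ℂ) (F f x))).re =
      s * (F g x * (starRingEnd ℂ) (F f x)).re := by
    rw [mul_left_comm, Complex.re_ofReal_mul]
  rw [this]
  ring

lemma qf_nonneg (g f : ℤ →₀ ℝ) (s x : ℝ) : 0 ≤ qf g f s x := by
  rw [← q_eq]; positivity

lemma b_sq (g f : ℤ →₀ ℝ) (x : ℝ) : b g f x ^ 2 ≤ ‖F g x‖ ^ 2 * ‖F f x‖ ^ 2 := by
  have h4 : |b g f x| ≤ ‖F g x‖ * ‖F f x‖ := by
    refine (Complex.abs_re_le_norm _).trans ?_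
    rw [norm_mul, Complex.norm_conj]
  rw [← sq_abs, ← mul_pow]
  exact pow_le_pow_left₀ (abs_nonneg _) h4 2

lemma bs_sq (g f : ℤ →₀ ℝ) (s x : ℝ) :
    (b g f x + s * ‖F f x‖ ^ 2) ^ 2 ≤ qf g f s x * ‖F f x‖ ^ 2 := by
  have := b_sq g f x
  unfold qf
  nlinarith

lemma F_cont (f : ℤ →₀ ℝ) : Continuous (F f) := Pool.Agent.H218R3.SPkA.F_continuous f

lemma b_cont (g f : ℤ →₀ ℝ) : Continuous (b g f) := by
  unfold b
  exact Complex.continuous_re.comp ((F_cont g).mul (Complex.continuous_conj.comp (F_cont f)))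

lemma q_cont2 (g f : ℤ →₀ ℝ) : Continuous (Function.uncurry (qf g f)) := by
  have h1 := F_cont g
  have h2 := F_cont f
  have h3 := b_cont g f
  unfold Function.uncurry qf
  fun_prop

lemma q_cont (g f : ℤ →₀ ℝ) (s : ℝ) : Continuous (qf g f s) := by
  have h1 := F_cont g
  have h2 := F_cont f
  have h3 := b_cont g f
  unfold qf
  fun_prop

lemma q_deriv (g f : ℤ →₀ ℝ) (s x : ℝ) :
    HasDerivAt (fun s => qf g f s x) (2 * (b g f x + s * ‖F f x‖ ^ 2)) s := by
  unfold qf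
  have h1 : HasDerivAt (fun s : ℝ => ‖F g x‖ ^ 2 + 2 * s * b g f x) (2 * b g f x) s := by
    have := (((hasDerivAt_id s).const_mul 2).mul_const (b g f x)).const_add (‖F g x‖ ^ 2)
    simpa using this
  have h2 : HasDerivAt (fun s : ℝ => s ^ 2 * ‖F f x‖ ^ 2) (2 * s * ‖F f x‖ ^ 2) s := by
    have := (hasDerivAt_pow 2 s).mul_const (‖F f x‖ ^ 2)
    simpa using this
  have := h1.add h2
  refine this.congr_deriv ?_
  ring

lemma M_eq (k : ℕ) (g f : ℤ →₀ ℝ) (s : ℝ) : M k (g + s • f) = ∫ x in (0:ℝ)..1, qf g f s x ^ k := by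
  unfold M
  congr 1
  funext x
  rw [pow_mul, q_eq]

/-- first derivative -/
noncomputable def H1 (k : ℕ) (g f : ℤ →₀ ℝ) (s : ℝ) : ℝ :=
  ∫ x in (0:ℝ)..1, (k : ℝ) * qf g f s x ^ (k - 1) * (2 * (b g f x + s * ‖F f x‖ ^ 2))

/-- second derivative -/
noncomputable def H2 (k : ℕ) (g f : ℤ →₀ ℝ) (s : ℝ) : ℝ :=
  ∫ x in (0:ℝ)..1, ((k : ℝ) * (((k - 1 : ℕ) : ℝ) * qf g f s x ^ (k - 1 - 1) *
      (2 * (b g f x + s * ‖F f x‖ ^ 2))) * (2 * (b g f x + s * ‖F f x‖ ^ 2)) +
      (k : ℝ) * qf g f s x ^ (k - 1) * (2 * ‖F f x‖ ^ 2))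

lemma deriv_H (k : ℕ) (g f : ℤ →₀ ℝ) (s : ℝ) :
    HasDerivAt (fun s => M k (g + s • f)) (H1 k g f s) s := by
  have e : (fun s => M k (g + s • f)) = fun s => ∫ x in (0:ℝ)..1, qf g f s x ^ k := by
    funext s; exact M_eq k g f s
  rw [e]
  have h1 := F_cont g
  have h2 := F_cont f
  have h3 := b_cont g f
  have h4 := q_cont2 g f
  refine hasDerivAt_intg (F := fun s x => qf g f s x ^ k) (fun s => (q_cont g f s).pow k) ?_
    (fun s x => (q_deriv g f s x).pow k) s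
  unfold Function.uncurry at h4 ⊢
  fun_prop

lemma deriv_H1 (k : ℕ) (g f : ℤ →₀ ℝ) (s : ℝ) :
    HasDerivAt (H1 k g f) (H2 k g f s) s := by
  have h1 := F_cont g
  have h2 := F_cont f
  have h3 := b_cont g f
  have h4 := q_cont2 g f
  refine hasDerivAt_intg
    (F := fun s x => (k : ℝ) * qf g f s x ^ (k - 1) * (2 * (b g f x + s * ‖F f x‖ ^ 2)))
    (F' := fun s x => (k : ℝ) * (((k - 1 : ℕ) : ℝ) * qf g f s x ^ (k - 1 - 1) *
      (2 * (b g f x + s * ‖F f x‖ ^ 2))) * (2 * (b g f x + s * ‖F f x‖ ^ 2)) +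
      (k : ℝ) * qf g f s x ^ (k - 1) * (2 * ‖F f x‖ ^ 2))
    (fun s => ?_) ?_ (fun s x => ?_) s
  · have h5 := q_cont g f s
    fun_prop
  · unfold Function.uncurry at h4 ⊢
    fun_prop
  · have h6 := ((q_deriv g f s x).pow (k - 1)).const_mul (k : ℝ)
    have h7 : HasDerivAt (fun s : ℝ => 2 * (b g f x + s * ‖F f x‖ ^ 2)) (2 * ‖F f x‖ ^ 2) s := by
      have := (((hasDerivAt_id s).mul_const (‖F f x‖ ^ 2)).const_add (b g f x)).const_mul 2
      simpa using this
    exact h6.mul h7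

lemma holder_q {k : ℕ} (hk : 1 ≤ k) (g f : ℤ →₀ ℝ) (s : ℝ) :
    ∫ x in (0:ℝ)..1, qf g f s x ^ (k - 1) * ‖F f x‖ ^ 2 ≤
      N k (g + s • f) ^ (k - 1) * N k f := by
  obtain ⟨j, rfl⟩ : ∃ j, k = j + 1 := ⟨k - 1, by omega⟩
  have hF := F_cont f
  have hG := F_cont (g + s • f)
  have := Pool.Agent.H224R3.SPk.holder (j + 1) hk
    (Fin.cons (fun x => ‖F f x‖) (fun _ x => ‖F (g + s • f) x‖)) (by
      intro i
      refine Fin.cases ?_ (fun i => ?_) i
      · simpa using hF.norm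
      · simpa using hG.norm) (by
      intro i x
      refine Fin.cases ?_ (fun i => ?_) i
      · simp
      · simp)
  simp only [Fin.prod_univ_succ, Fin.cons_zero, Fin.cons_succ, Finset.prod_const,
    Finset.card_univ, Fintype.card_fin] at this
  simp only [Nat.add_sub_cancel]
  have e : ∀ x, qf g f s x ^ j * ‖F f x‖ ^ 2 = ‖F f x‖ ^ 2 * (‖F (g + s • f) x‖ ^ 2) ^ j := by
    intro x; rw [q_eq]; ring
  simp only [e]
  refine this.trans (le_of_eq ?_)
  unfold N M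
  rw [mul_comm]

lemma int_cont {h : ℝ → ℝ} (hh : Continuous h) : IntervalIntegrable h volume 0 1 :=
  hh.intervalIntegrable _ _

lemma H2_le {k : ℕ} (hk : 2 ≤ k) (g f : ℤ →₀ ℝ) (s : ℝ) :
    H2 k g f s ≤ 2 * k * (2 * k - 1) * (N k (g + s • f) ^ (k - 1) * N k f) := by
  have h1 := F_cont g
  have h2 := F_cont f
  have h3 := b_cont g f
  have h5 := q_cont g f s
  have hk2 : (2:ℝ) ≤ k := by exact_mod_cast hk
  have key : H2 k g f s ≤ ∫ x in (0:ℝ)..1, 2 * k * (2 * k - 1) * (qf g f s x ^ (k - 1) * ‖F f x‖ ^ 2) := by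
    unfold H2
    refine intervalIntegral.integral_mono_on zero_le_one (int_cont (by fun_prop))
      (int_cont (by fun_prop)) fun x _ => ?_
    have h6 := bs_sq g f s x
    have h7 := qf_nonneg g f s x
    have e : qf g f s x ^ (k - 1) = qf g f s x ^ (k - 1 - 1) * qf g f s x := by
      rw [← pow_succ]; congr 1; omega
    have e2 : ((k - 1 : ℕ) : ℝ) = k - 1 := by push_cast [Nat.cast_sub (by omega : 1 ≤ k)]; ring
    rw [e, e2]
    have h8 : 0 ≤ qf g f s x ^ (k - 1 - 1) := pow_nonneg h7 _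
    have h9 : 0 ≤ 4 * (k:ℝ) * (k - 1) * qf g f s x ^ (k - 1 - 1) := by
      have : (0:ℝ) ≤ k - 1 := by linarith
      positivity
    have := mul_le_mul_of_nonneg_left h6 h9
    nlinarith [this]
  refine key.trans ?_
  rw [intervalIntegral.integral_const_mul]
  refine mul_le_mul_of_nonneg_left (holder_q (by omega) g f s) ?_
  have : (0:ℝ) ≤ 2 * k - 1 := by linarith
  positivity

lemma H1_sq {k : ℕ} (hk : 2 ≤ k) (g f : ℤ →₀ ℝ) (s : ℝ) :
    H1 k g f s ^ 2 ≤ 4 * k ^ 2 * (M k (g + s • f) * (N k (g + s • f) ^ (k - 1) * N k f)) := by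
  have h1 := F_cont g
  have h2 := F_cont f
  have h3 := b_cont g f
  have h5 := q_cont g f s
  set A : ℝ := ∫ x in (0:ℝ)..1, qf g f s x ^ k with hA
  set B : ℝ := ∫ x in (0:ℝ)..1, qf g f s x ^ (k - 1) * (b g f x + s * ‖F f x‖ ^ 2) with hB
  set C : ℝ := ∫ x in (0:ℝ)..1, qf g f s x ^ (k - 1) * ‖F f x‖ ^ 2 with hC
  have e1 : H1 k g f s = 2 * k * B := by
    unfold H1
    rw [hB, ← intervalIntegral.integral_const_mul]
    congr 1; funext x; ring
  have quad : ∀ t : ℝ, 0 ≤ A * (t * t) + 2 * B * t + C := by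
    intro t
    have e2 : A * (t * t) + 2 * B * t + C = ∫ x in (0:ℝ)..1, (qf g f s x ^ k * (t * t) +
        qf g f s x ^ (k - 1) * (b g f x + s * ‖F f x‖ ^ 2) * (2 * t) +
        qf g f s x ^ (k - 1) * ‖F f x‖ ^ 2) := by
      rw [intervalIntegral.integral_add (int_cont (by fun_prop)) (int_cont (by fun_prop)),
        intervalIntegral.integral_add (int_cont (by fun_prop)) (int_cont (by fun_prop)),
        intervalIntegral.integral_mul_const, intervalIntegral.integral_mul_const]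
      ring
    rw [e2]
    refine intervalIntegral.integral_nonneg zero_le_one fun x _ => ?_
    have h6 := bs_sq g f s x
    have h7 := qf_nonneg g f s x
    have e : qf g f s x ^ k = qf g f s x ^ (k - 1) * qf g f s x := by
      rw [← pow_succ]; congr 1; omega
    rw [e]
    have h8 : 0 ≤ qf g f s x ^ (k - 1) := pow_nonneg h7 _
    have h9 : 0 ≤ qf g f s x * (t * t) + (b g f x + s * ‖F f x‖ ^ 2) * (2 * t) + ‖F f x‖ ^ 2 := by
      set β := b g f x + s * ‖F f x‖ ^ 2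
      set Q := qf g f s x
      set γ := ‖F f x‖ ^ 2 with hγ
      have hγ0 : 0 ≤ γ := by positivity
      rcases h7.eq_or_lt with h0 | h0
      · have : β = 0 := by
          have : β ^ 2 ≤ 0 := by rw [← h0] at h6; linarith
          nlinarith [sq_nonneg β]
        rw [← h0, this]; linarith
      · have : 0 ≤ Q * (Q * (t * t) + β * (2 * t) + γ) := by nlinarith [sq_nonneg (Q * t + β)]
        exact nonneg_of_mul_nonneg_right this h0
    nlinarith [mul_nonneg h8 h9]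
  have hd := discrim_le_zero quad
  unfold discrim at hd
  have hBC : B ^ 2 ≤ A * C := by nlinarith
  have hA0 : 0 ≤ A := intervalIntegral.integral_nonneg zero_le_one fun x _ =>
    pow_nonneg (qf_nonneg g f s x) _
  rw [e1, M_eq, ← hA]
  have h10 : A * C ≤ A * (N k (g + s • f) ^ (k - 1) * N k f) :=
    mul_le_mul_of_nonneg_left (holder_q (by omega) g f s) hA0
  nlinarith [mul_le_mul_of_nonneg_left (hBC.trans h10) (by positivity : (0:ℝ) ≤ 4 * k ^ 2)]

end Pool.Agent.N811.SP
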