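import Mathlib

set_option autoImplicit false

/-! Real inequalities, part 1. -/

namespace Pool.Agent.N811.SP

/-- the properties of the parameters that the key inequality needs; `m = 1 - 1/n`, `p = m β` -/
structure Good (n β K σ : ℝ) : Prop where
  hn : 2 ≤ n
  hβ : 0 < β
  hK : n ^ β = K
  hnp : 1 ≤ (n - 1) * β
  hσ : (1 - 1 / n) * β < σ
  c1 : (1 + (1 - 1 / n) / σ) ^ (1 + β) ≤ K / σ
  c2 : (1 + (1 - 1 / n) / ((1 - 1 / n) * β)) ^ (1 + β) ≤ K / ((1 - 1 / n) * β)
  c3 : ∀ y, 0 ≤ y → (1 - 1 / n) * β * y ≤ 1 → 1 - σ * y ≤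
    (1 + (1 - 1 / n) * y) ^ ((β - 1) / 2) * (1 - y / n) ^ (((n - 1) * β + 3) / 2) *
      ((1 - (1 - 1 / n) * β * y) / (1 + (1 - 1 / n) * β * y))

lemma Good.le_n {n β K σ : ℝ} (h : Good n β K σ) {y : ℝ} (hy : 0 ≤ y)
    (hpy : (1 - 1 / n) * β * y ≤ 1) : y ≤ n := by
  have hn := h.hn
  have h1 := h.hnp
  have e : (1 - 1 / n) * β * y = (n - 1) * β * y / n := by field_simp
  rw [e, div_le_one (by linarith)] at hpy
  nlinarith

/-- the differentiated inequality -/
lemma Good.tstar {n β K σ : ℝ} (h : Good n β K σ) {y : ℝ} (hy : 0 ≤ y)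
    (hpy : (1 - 1 / n) * β * y ≤ 1) :
    (1 + (1 - 1 / n) * y) ^ (1 + β) ≤ K * y +
      (1 + (1 - 1 / n) * y) ^ ((β - 1) / 2) * (1 - y / n) ^ (((n - 1) * β + 3) / 2) *
      ((1 - (1 - 1 / n) * β * y) / (1 + (1 - 1 / n) * β * y)) := by
  have hn := h.hn
  have hβ := h.hβ
  have hyn := h.le_n hy hpy
  have c3 := h.c3 y hy hpy
  have hσ := h.hσ
  have c1 := h.c1
  have c2 := h.c2
  have hm : 0 < 1 - 1 / n := by
    have : 1 / n ≤ 1 / 2 := by gcongr
    linarith
  set m := 1 - 1 / n with hmdef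
  set p := m * β with hp
  have hp0 : 0 < p := by positivity
  have hσ0 : 0 < σ := by linarith
  set X := (1 + m * y) ^ ((β - 1) / 2) * (1 - y / n) ^ (((n - 1) * β + 3) / 2) *
      ((1 - p * y) / (1 + p * y)) with hX
  have hX0 : 0 ≤ X := by
    have h1 : 0 ≤ 1 - y / n := by
      have : y / n ≤ 1 := by rw [div_le_one (by linarith)]; exact hyn
      linarith
    have h2 : 0 ≤ 1 - p * y := by linarith
    have h3 : 0 < 1 + m * y := by positivity
    positivity
  have hcv := (convexOn_rpow (by linarith : (1:ℝ) ≤ 1 + β)).2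
  rcases le_total (σ * y) 1 with hle | hge
  · -- first piece
    have h1 := hcv (x := 1) (by simp) (y := 1 + m / σ) (by simp only [Set.mem_Ici]; positivity)
      (a := 1 - σ * y) (b := σ * y) (by linarith) (by positivity) (by ring)
    simp only [smul_eq_mul, mul_one, Real.one_rpow] at h1
    have e1 : 1 - σ * y + σ * y * (1 + m / σ) = 1 + m * y := by field_simp; ring
    rw [e1] at h1
    have h2 : σ * y * (1 + m / σ) ^ (1 + β) ≤ σ * y * (K / σ) :=
      mul_le_mul_of_nonneg_left c1 (by positivity)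
    have e2 : σ * y * (K / σ) = K * y := by field_simp
    linarith
  · -- second piece
    -- y = (1-θ)/σ + θ/p
    set θ := (y - 1 / σ) / (1 / p - 1 / σ) with hθ
    have hd : 0 < 1 / p - 1 / σ := by
      have : 1 / σ < 1 / p := one_div_lt_one_div_of_lt hp0 hσ
      linarith
    have hy1 : 1 / σ ≤ y := by rw [div_le_iff₀ hσ0]; linarith
    have hy2 : y ≤ 1 / p := by rw [le_div_iff₀ hp0]; linarith
    have hθ0 : 0 ≤ θ := div_nonneg (by linarith) hd.le
    have hθ1 : θ ≤ 1 := by rw [hθ, div_le_one hd]; linarith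
    have hyθ : y = (1 - θ) * (1 / σ) + θ * (1 / p) := by
      have : θ * (1 / p - 1 / σ) = y - 1 / σ := by rw [hθ]; exact div_mul_cancel₀ _ hd.ne'
      linarith
    have h1 := hcv (x := 1 + m / σ) (by simp only [Set.mem_Ici]; positivity) (y := 1 + m / p)
      (by simp only [Set.mem_Ici]; positivity)
      (a := 1 - θ) (b := θ) (by linarith) hθ0 (by ring)
    simp only [smul_eq_mul] at h1
    have e1 : (1 - θ) * (1 + m / σ) + θ * (1 + m / p) = 1 + m * y := by
      rw [hyθ]; ring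
    rw [e1] at h1
    have h2 : (1 - θ) * (1 + m / σ) ^ (1 + β) ≤ (1 - θ) * (K / σ) :=
      mul_le_mul_of_nonneg_left c1 (by linarith)
    have h3 : θ * (1 + m / p) ^ (1 + β) ≤ θ * (K / p) := mul_le_mul_of_nonneg_left c2 hθ0
    have e2 : (1 - θ) * (K / σ) + θ * (K / p) = K * y := by
      rw [hyθ]; ring
    linarith

/-- Bernoulli for small negative exponents -/
lemma bern_neg {z a : ℝ} (hz : 0 ≤ z) (ha : 0 ≤ a) (ha1 : a ≤ 1) : 1 - a * z ≤ (1 + z) ^ (-a) := by
  have h1 := rpow_one_add_le_one_add_mul_self (s := z) (by linarith) ha ha1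
  have h0 : 0 < (1 + z) ^ a := by positivity
  rw [Real.rpow_neg (by linarith)]
  have h2 : (1 + a * z)⁻¹ ≤ ((1 + z) ^ a)⁻¹ := by
    apply inv_anti₀ h0 h1
  refine le_trans ?_ h2
  have : 0 < 1 + a * z := by positivity
  rw [← one_div, le_div_iff₀ this]
  nlinarith [mul_nonneg ha hz]

lemma frac_ge {t : ℝ} (ht : 0 ≤ t) : 1 - 2 * t ≤ (1 - t) / (1 + t) := by
  rw [le_div_iff₀ (by linarith)]
  nlinarith

lemma bern_pos {z e : ℝ} (hz : z ≤ 1) (he : 1 ≤ e) : 1 - e * z ≤ (1 - z) ^ e := by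
  have := one_add_mul_self_le_rpow_one_add (s := -z) (by linarith) he
  have e1 : (1 + -z) = 1 - z := by ring
  rw [e1] at this
  linarith

lemma prod3 {x y z a b c : ℝ} (hx : 1 - a ≤ x) (hy : 1 - b ≤ y) (hz : 1 - c ≤ z)
    (ha : 0 ≤ a) (hb : 0 ≤ b) (hc : 0 ≤ c) (hx0 : 0 ≤ x) (hy0 : 0 ≤ y) (hz0 : 0 ≤ z) :
    1 - (a + b + c) ≤ x * y * z := by
  rcases le_or_gt (a + b + c) 1 with h | h
  · have h1 : (1 - a) * (1 - b) ≤ x * y := mul_le_mul hx hy (by linarith) hx0
    have h2 : (1 - a) * (1 - b) * (1 - c) ≤ x * y * z :=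
      mul_le_mul h1 hz (by linarith) (by positivity)
    have h3 : 1 - (a + b) ≤ (1 - a) * (1 - b) := by nlinarith
    have h4 : (1 - (a + b)) * (1 - c) ≤ (1 - a) * (1 - b) * (1 - c) :=
      mul_le_mul_of_nonneg_right h3 (by linarith)
    nlinarith [mul_nonneg (add_nonneg ha hb) hc]
  · have : 0 ≤ x * y * z := by positivity
    linarith

/-- `β ≥ 1` -/
lemma good_ge {n β K : ℝ} (hn : 2 ≤ n) (hβ : 1 ≤ β) (hK : n ^ β = K)
    (N1 : (3 / (2 * n) + 5 / 2 * ((1 - 1 / n) * β)) *
      (1 + 1 / (2 * n) + 5 / 2 * ((1 - 1 / n) * β)) ^ 2 ≤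
      K * (1 / 2 + 1 / n + 2 * ((1 - 1 / n) * β)) ^ 2)
    (N2 : 4 * ((1 - 1 / n) * β) ≤ K) :
    Good n β K (3 / (2 * n) + 5 / 2 * ((1 - 1 / n) * β)) := by
  have hn0 : 0 < n := by linarith
  have h1n : 1 / n ≤ 1 / 2 := by gcongr
  have h0n : 0 < 1 / n := by positivity
  have hm : 0 < 1 - 1 / n := by linarith
  have e32 : 3 / (2 * n) = 3 / 2 * (1 / n) := by field_simp
  have e12 : 1 / (2 * n) = 1 / 2 * (1 / n) := by field_simp
  rw [e32] at N1 ⊢
  rw [e12] at N1
  have hnp : 1 ≤ (n - 1) * β := by nlinarith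
  set h := 1 / n with hh
  set m := 1 - h with hmdef
  set p := m * β with hp
  have hp0 : 0 < p := by positivity
  set σ := 3 / 2 * h + 5 / 2 * p with hσ
  have hσ0 : 0 < σ := by positivity
  have hK0 : 0 < K := by rw [← hK]; positivity
  refine ⟨hn, by linarith, hK, hnp, ?_, ?_, ?_, ?_⟩
  · rw [hσ]; linarith
  · -- c1
    have hb := bern_pos (z := m / (σ + m)) (e := (1 + β) / 2)
      (by rw [div_le_one (by positivity)]; linarith) (by linarith)
    have e1 : 1 - (1 + β) / 2 * (m / (σ + m)) = (1 / 2 + h + 2 * p) / (1 + 1 / 2 * h + 5 / 2 * p) := by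
      have e3 : 1 + 1 / 2 * h + 5 / 2 * p = σ + m := by rw [hσ, hmdef]; ring
      rw [e3]
      field_simp
      rw [hσ, hp, hmdef]
      ring
    have e2 : 1 - m / (σ + m) = (1 + m / σ)⁻¹ := by
      field_simp
      ring
    rw [e1, e2, Real.inv_rpow (by positivity)] at hb
    have hY : 0 < (1 + m / σ) ^ ((1 + β) / 2) := by positivity
    have hnum : 0 < 1 / 2 + h + 2 * p := by positivity
    have hden : 0 < 1 + 1 / 2 * h + 5 / 2 * p := by positivity
    have h3 : (1 + m / σ) ^ ((1 + β) / 2) ≤ (1 + 1 / 2 * h + 5 / 2 * p) / (1 / 2 + h + 2 * p) := by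
      have := inv_anti₀ (by positivity) hb
      rwa [inv_inv, inv_div] at this
    have h4 : (1 + m / σ) ^ (1 + β) = ((1 + m / σ) ^ ((1 + β) / 2)) ^ 2 := by
      rw [← Real.rpow_natCast, ← Real.rpow_mul (by positivity)]
      congr 1; push_cast; ring
    rw [h4]
    refine (pow_le_pow_left₀ hY.le h3 2).trans ?_
    rw [div_pow, div_le_div_iff₀ (by positivity) hσ0, mul_comm]
    exact N1
  · -- c2
    have hb := bern_pos (z := 1 / (1 + β)) (e := (1 + β) / 2)
      (by rw [div_le_one (by positivity)]; linarith) (by linarith)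
    have e1 : 1 - (1 + β) / 2 * (1 / (1 + β)) = 1 / 2 := by
      field_simp; norm_num
    have e2 : 1 - 1 / (1 + β) = (1 + m / p)⁻¹ := by
      rw [hp]; field_simp; ring
    rw [e1, e2, Real.inv_rpow (by positivity)] at hb
    have hY : 0 < (1 + m / p) ^ ((1 + β) / 2) := by positivity
    have h3 : (1 + m / p) ^ ((1 + β) / 2) ≤ 2 := by
      have := inv_anti₀ (by positivity) hb
      rw [inv_inv] at this
      norm_num at this
      exact this
    have h4 : (1 + m / p) ^ (1 + β) = ((1 + m / p) ^ ((1 + β) / 2)) ^ 2 := by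
      rw [← Real.rpow_natCast, ← Real.rpow_mul (by positivity)]
      congr 1; push_cast; ring
    rw [h4]
    refine (pow_le_pow_left₀ hY.le h3 2).trans ?_
    rw [le_div_iff₀ hp0]
    linarith
  · intro y hy hpy
    have hyn : y ≤ n := by
      have e : p * y = (n - 1) * β * y / n := by rw [hp, hmdef, hh]; field_simp
      rw [e, div_le_one (by linarith)] at hpy
      linarith [mul_le_mul_of_nonneg_right hnp hy]
    have hyn' : y / n ≤ 1 := by rw [div_le_one (by linarith)]; exact hyn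
    have f0 : 1 - 0 ≤ (1 + m * y) ^ ((β - 1) / 2) := by
      rw [sub_zero]
      exact Real.one_le_rpow (by nlinarith) (by linarith)
    have f1 := bern_pos (z := y / n) (e := ((n - 1) * β + 3) / 2) hyn' (by linarith)
    have f2 := frac_ge (t := p * y) (by positivity)
    have hn1 : 0 ≤ ((n - 1) * β + 3) / 2 := by linarith
    have := prod3 f0 f1 f2 le_rfl (by positivity) (by positivity) (by linarith)
      (Real.rpow_nonneg (by linarith) _) (div_nonneg (by linarith) (by positivity))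
    refine le_trans (le_of_eq ?_) this
    have e : ((n - 1) * β + 3) / 2 * (y / n) = (1 / 2 * p + 3 / 2 * h) * y := by
      rw [hp, hmdef, hh]; field_simp
    rw [e, hσ]
    ring

/-- `β ≤ 1` -/
lemma good_le {n β K : ℝ} (hn : 2 ≤ n) (hβ0 : 0 < β) (hβ : β ≤ 1) (hK : n ^ β = K) (hK5 : 5 ≤ K) :
    Good n β K (1 / 2 + 1 / n + 2 * ((1 - 1 / n) * β)) := by
  have hn0 : 0 < n := by linarith
  have h1n : 1 / n ≤ 1 / 2 := by gcongr
  have h0n : 0 < 1 / n := by positivity
  have hm : 0 < 1 - 1 / n := by linarith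
  have hnp : 1 ≤ (n - 1) * β := by
    have h1 := rpow_one_add_le_one_add_mul_self (s := n - 1) (by linarith) hβ0.le hβ
    rw [add_sub_cancel, hK] at h1
    linarith
  set h := 1 / n with hh
  set m := 1 - h with hmdef
  set p := m * β with hp
  have hp0 : 0 < p := by positivity
  have hp1 : p ≤ 1 := by
    have : p ≤ 1 * 1 := mul_le_mul (by linarith) hβ hβ0.le (by norm_num)
    linarith
  set σ := 1 / 2 + h + 2 * p with hσ
  have hσ0 : 0 < σ := by positivity
  have hK0 : 0 < K := by linarith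
  refine ⟨hn, hβ0, hK, hnp, ?_, ?_, ?_, ?_⟩
  · rw [hσ]; linarith
  · have h00 : 0 < m / σ := by positivity
    have h1 := rpow_one_add_le_one_add_mul_self (s := m / σ) (by linarith) hβ0.le hβ
    rw [Real.rpow_add (by positivity), Real.rpow_one, le_div_iff₀ hσ0]
    have h2 : (1 + m / σ) * (1 + m / σ) ^ β * σ ≤ (1 + m / σ) * (1 + β * (m / σ)) * σ := by
      gcongr
    refine h2.trans ?_
    have e1 : (1 + m / σ) * (1 + β * (m / σ)) * σ = σ + m + p + p * m / σ := by
      rw [hp]; field_simp; ring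
    rw [e1]
    have h3 : p * m / σ ≤ 2 / 5 := by
      rw [div_le_iff₀ hσ0, hσ]
      nlinarith
    rw [hσ] at h3 ⊢
    linarith
  · have h00 : 0 < m / p := by positivity
    have h1 := rpow_one_add_le_one_add_mul_self (s := m / p) (by linarith) hβ0.le hβ
    rw [Real.rpow_add (by positivity), Real.rpow_one, le_div_iff₀ hp0]
    have h2 : (1 + m / p) * (1 + m / p) ^ β * p ≤ (1 + m / p) * (1 + β * (m / p)) * p := by
      gcongr
    refine h2.trans ?_
    have e1 : (1 + m / p) * (1 + β * (m / p)) * p = 2 * (p + m) := by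
      rw [hp]; field_simp; ring
    rw [e1]
    linarith
  · intro y hy hpy
    have hyn : y ≤ n := by
      have e : p * y = (n - 1) * β * y / n := by rw [hp, hmdef, hh]; field_simp
      rw [e, div_le_one (by linarith)] at hpy
      linarith [mul_le_mul_of_nonneg_right hnp hy]
    have hyn' : y / n ≤ 1 := by rw [div_le_one (by linarith)]; exact hyn
    have f0 := bern_neg (z := m * y) (a := (1 - β) / 2) (by positivity) (by linarith) (by linarith)
    have e0 : -((1 - β) / 2) = (β - 1) / 2 := by ring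
    rw [e0] at f0
    have f1 := bern_pos (z := y / n) (e := ((n - 1) * β + 3) / 2) hyn' (by linarith)
    have f2 := frac_ge (t := p * y) (by positivity)
    have hn1 : 0 ≤ ((n - 1) * β + 3) / 2 := by linarith
    have hb2 : 0 ≤ (1 - β) / 2 := by linarith
    have := prod3 f0 f1 f2 (by positivity) (by positivity) (by positivity) (by positivity)
      (Real.rpow_nonneg (by linarith) _) (div_nonneg (by linarith) (by positivity))
    refine le_trans (le_of_eq ?_) this
    have e : ((n - 1) * β + 3) / 2 * (y / n) = (1 / 2 * p + 3 / 2 * h) * y := by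
      rw [hp, hmdef, hh]; field_simp
    have e' : (1 - β) / 2 * (m * y) = (1 / 2 * (1 - h) - 1 / 2 * p) * y := by
      rw [hp, hmdef]; ring
    rw [e, e', hσ]
    ring

end Pool.Agent.N811.SP
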