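import Pool.Agent.N811.SP.Real1

set_option autoImplicit false

/-! Real inequalities, part 2: admissible parameters. -/

namespace Pool.Agent.N811.SP

lemma K_ge {n β K : ℝ} (hn : 3 ≤ n) (hβ : 1 ≤ β) (hK : n ^ β = K) : n * β ≤ K := by
  have hn0 : 0 < n := by linarith
  have hlog : 1 ≤ Real.log n := by
    rw [Real.le_log_iff_exp_le hn0]
    have := Real.exp_one_lt_d9
    linarith
  have h1 : n ^ β = n * Real.exp ((β - 1) * Real.log n) := by
    have : β = 1 + (β - 1) := by ring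
    rw [this, Real.rpow_add hn0, Real.rpow_one, Real.rpow_def_of_pos hn0, add_sub_cancel_left,
      mul_comm (Real.log n)]
  have h2 := Real.add_one_le_exp ((β - 1) * Real.log n)
  rw [← hK, h1]
  apply mul_le_mul_of_nonneg_left _ hn0.le
  nlinarith

lemma good_five {n β K : ℝ} (hn : 5 ≤ n) (hβ : 1 ≤ β) (hK : n ^ β = K) :
    Good n β K (3 / (2 * n) + 5 / 2 * ((1 - 1 / n) * β)) := by
  have hKb := K_ge (by linarith) hβ hK
  have hn0 : 0 < n := by linarith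
  have h0n : 0 < 1 / n := by positivity
  have h1n : 1 / n ≤ 1 / 5 := by gcongr
  have e32 : 3 / (2 * n) = 3 / 2 * (1 / n) := by field_simp
  have e12 : 1 / (2 * n) = 1 / 2 * (1 / n) := by field_simp
  have hK1 : 25 / 4 * ((1 - 1 / n) * β) ≤ K := by
    refine le_trans ?_ hKb
    have : 25 / 4 * (1 - 1 / n) ≤ n := by
      have e : 25 / 4 * (1 - 1 / n) = 25 / 4 * (n - 1) / n := by field_simp
      rw [e, div_le_iff₀ hn0]
      nlinarith
    nlinarith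
  have hp : 4 / 5 ≤ (1 - 1 / n) * β := by nlinarith
  refine good_ge (by linarith) hβ hK ?_ (by linarith)
  rw [e32, e12]
  set h := 1 / n
  set p := (1 - h) * β
  have h1 : 3 / 2 * h + 5 / 2 * p ≤ 23 / 8 * p := by linarith
  have h2 : 1 + 1 / 2 * h + 5 / 2 * p ≤ 147 / 100 * (1 / 2 + h + 2 * p) := by linarith
  have hp0 : 0 < p := by linarith
  have h3 : (1 + 1 / 2 * h + 5 / 2 * p) ^ 2 ≤ (147 / 100 * (1 / 2 + h + 2 * p)) ^ 2 :=
    pow_le_pow_left₀ (by positivity) h2 2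
  calc (3 / 2 * h + 5 / 2 * p) * (1 + 1 / 2 * h + 5 / 2 * p) ^ 2 ≤
      (23 / 8 * p) * (147 / 100 * (1 / 2 + h + 2 * p)) ^ 2 :=
        mul_le_mul h1 h3 (by positivity) (by positivity)
    _ = (23 / 8 * (147 / 100) ^ 2 * p) * (1 / 2 + h + 2 * p) ^ 2 := by ring
    _ ≤ K * (1 / 2 + h + 2 * p) ^ 2 := by
        apply mul_le_mul_of_nonneg_right _ (by positivity)
        refine le_trans ?_ hK1
        apply mul_le_mul_of_nonneg_right _ hp0.le
        norm_num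

lemma good_four {β K : ℝ} (hβ : 1 ≤ β) (hK : (4:ℝ) ^ β = K) :
    Good 4 β K (3 / (2 * 4) + 5 / 2 * ((1 - 1 / 4) * β)) := by
  have hKb := K_ge (by norm_num) hβ hK
  refine good_ge (by norm_num) hβ hK ?_ (by linarith)
  have h1 : 3 / (2 * 4) + 5 / 2 * ((1 - 1 / 4) * β) ≤ 9 / 4 * β := by linarith
  have h2 : 3 / 2 * (1 + 1 / (2 * 4) + 5 / 2 * ((1 - 1 / 4) * β)) ≤
      2 * (1 / 2 + 1 / 4 + 2 * ((1 - 1 / 4) * β)) := by linarith
  set Y := 1 + 1 / (2 * 4) + 5 / 2 * ((1 - 1 / 4) * β) with hY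
  set Z := 1 / 2 + 1 / 4 + 2 * ((1 - 1 / 4) * β) with hZ
  have hY0 : 0 < Y := by rw [hY]; positivity
  have h3 : (3 / 2 * Y) ^ 2 ≤ (2 * Z) ^ 2 := pow_le_pow_left₀ (by positivity) h2 2
  have h4 : (3 / (2 * 4) + 5 / 2 * ((1 - 1 / 4) * β)) * Y ^ 2 ≤ 9 / 4 * β * Y ^ 2 :=
    mul_le_mul_of_nonneg_right h1 (by positivity)
  have h5 : 9 / 4 * β * Y ^ 2 ≤ β * (2 * Z) ^ 2 := by
    have := mul_le_mul_of_nonneg_left h3 (by linarith : 0 ≤ β)
    nlinarith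
  have h6 : 4 * β * Z ^ 2 ≤ K * Z ^ 2 := mul_le_mul_of_nonneg_right hKb (by positivity)
  nlinarith

lemma good_three {β K : ℝ} (hK : (3:ℝ) ^ β = K) (hK5 : 5 ≤ K) :
    Good 3 β K (3 / (2 * 3) + 5 / 2 * ((1 - 1 / 3) * β)) := by
  have h146 : (3:ℝ) ^ ((73:ℝ) / 50) ≤ 5 := by
    have : ((3:ℝ) ^ ((73:ℝ) / 50)) ^ 50 ≤ 5 ^ 50 := by
      rw [← Real.rpow_natCast, ← Real.rpow_mul (by norm_num)]
      norm_num
    exact le_of_pow_le_pow_left₀ (by norm_num) (by norm_num) this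
  have h146' : (497 / 100 : ℝ) ≤ (3:ℝ) ^ ((73:ℝ) / 50) := by
    have : ((497 / 100 : ℝ)) ^ 50 ≤ ((3:ℝ) ^ ((73:ℝ) / 50)) ^ 50 := by
      rw [← Real.rpow_natCast ((3:ℝ) ^ ((73:ℝ) / 50)), ← Real.rpow_mul (by norm_num)]
      norm_num
    exact le_of_pow_le_pow_left₀ (by norm_num) (by positivity) this
  have hβ : (73:ℝ) / 50 ≤ β := by
    by_contra hcon
    push Not at hcon
    have := Real.rpow_lt_rpow_of_exponent_lt (by norm_num : (1:ℝ) < 3) hcon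
    linarith
  obtain ⟨t, ht⟩ : ∃ t, β = 73 / 50 + t := ⟨β - 73 / 50, by ring⟩
  have ht0 : 0 ≤ t := by linarith
  have hKt : 497 / 100 * (1 + t) ≤ K := by
    have h1 : (3:ℝ) ^ β = (3:ℝ) ^ ((73:ℝ) / 50) * Real.exp (t * Real.log 3) := by
      rw [ht, Real.rpow_add (by norm_num), Real.rpow_def_of_pos (by norm_num : (0:ℝ) < 3) t,
        mul_comm (Real.log 3)]
    have hlog : 1 ≤ Real.log 3 := by
      rw [Real.le_log_iff_exp_le (by norm_num)]
      have := Real.exp_one_lt_d9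
      linarith
    have h2 := Real.add_one_le_exp (t * Real.log 3)
    have h3 : 1 + t ≤ Real.exp (t * Real.log 3) := by nlinarith
    rw [← hK, h1]
    exact mul_le_mul h146' h3 (by linarith) (by positivity)
  refine good_ge (by norm_num) (by linarith) hK ?_ (by rw [ht]; linarith)
  have h4 : 497 / 100 * (1 + t) * (1 / 2 + 1 / 3 + 2 * ((1 - 1 / 3) * β)) ^ 2 ≤
    K * (1 / 2 + 1 / 3 + 2 * ((1 - 1 / 3) * β)) ^ 2 := mul_le_mul_of_nonneg_right hKt (by positivity)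
  refine le_trans ?_ h4
  rw [ht]
  have h5 := pow_nonneg ht0 2
  have h6 := pow_nonneg ht0 3
  nlinarith

lemma good_two {β K : ℝ} (hK : (2:ℝ) ^ β = K) (hK7 : 7 ≤ K) :
    Good 2 β K (3 / (2 * 2) + 5 / 2 * ((1 - 1 / 2) * β)) := by
  have h146 : (2:ℝ) ^ ((14:ℝ) / 5) ≤ 7 := by
    have : ((2:ℝ) ^ ((14:ℝ) / 5)) ^ 5 ≤ 7 ^ 5 := by
      rw [← Real.rpow_natCast, ← Real.rpow_mul (by norm_num)]
      norm_num
    exact le_of_pow_le_pow_left₀ (by norm_num) (by norm_num) this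
  have h146' : (696 / 100 : ℝ) ≤ (2:ℝ) ^ ((14:ℝ) / 5) := by
    have : ((696 / 100 : ℝ)) ^ 5 ≤ ((2:ℝ) ^ ((14:ℝ) / 5)) ^ 5 := by
      rw [← Real.rpow_natCast ((2:ℝ) ^ ((14:ℝ) / 5)), ← Real.rpow_mul (by norm_num)]
      norm_num
    exact le_of_pow_le_pow_left₀ (by norm_num) (by positivity) this
  have hβ : (14:ℝ) / 5 ≤ β := by
    by_contra hcon
    push Not at hcon
    have := Real.rpow_lt_rpow_of_exponent_lt (by norm_num : (1:ℝ) < 2) hcon
    linarith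
  obtain ⟨t, ht⟩ : ∃ t, β = 14 / 5 + t := ⟨β - 14 / 5, by ring⟩
  have ht0 : 0 ≤ t := by linarith
  have hKt : 696 / 100 * (1 + 69 / 100 * t) ≤ K := by
    have h1 : (2:ℝ) ^ β = (2:ℝ) ^ ((14:ℝ) / 5) * Real.exp (t * Real.log 2) := by
      rw [ht, Real.rpow_add (by norm_num), Real.rpow_def_of_pos (by norm_num : (0:ℝ) < 2) t,
        mul_comm (Real.log 2)]
    have hlog : 69 / 100 ≤ Real.log 2 := by
      have := Real.log_two_gt_d9
      linarith
    have h2 := Real.add_one_le_exp (t * Real.log 2)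
    have h3 : 1 + 69 / 100 * t ≤ Real.exp (t * Real.log 2) := by nlinarith
    rw [← hK, h1]
    exact mul_le_mul h146' h3 (by linarith) (by positivity)
  refine good_ge (by norm_num) (by linarith) hK ?_ (by rw [ht]; linarith)
  have h4 : 25 / 16 * (3 / (2 * 2) + 5 / 2 * ((1 - 1 / 2) * β)) ≤ K := by
    rw [ht]; linarith
  have h5 := mul_le_mul_of_nonneg_right h4 (by positivity : 0 ≤ (1 + β) ^ 2)
  have e1 : (3 / (2 * 2) + 5 / 2 * ((1 - 1 / 2) * β)) *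
      (1 + 1 / (2 * 2) + 5 / 2 * ((1 - 1 / 2) * β)) ^ 2 =
      25 / 16 * (3 / (2 * 2) + 5 / 2 * ((1 - 1 / 2) * β)) * (1 + β) ^ 2 := by ring
  have e2 : K * (1 / 2 + 1 / 2 + 2 * ((1 - 1 / 2) * β)) ^ 2 = K * (1 + β) ^ 2 := by ring
  rw [e1, e2]
  exact h5

/-- all admissible parameters -/
theorem exists_good {k n : ℕ} (hk : 3 ≤ k) (hn : 2 ≤ n) (hkn : 6 ≤ k + n) {β : ℝ} (hβ : 0 < β)
    (hK : (n : ℝ) ^ β = 2 * k - 1) : ∃ σ, Good n β (2 * k - 1) σ := by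
  have hk3 : (3:ℝ) ≤ k := by exact_mod_cast hk
  have hn2 : (2:ℝ) ≤ n := by exact_mod_cast hn
  rcases le_total β 1 with h1 | h1
  · exact ⟨_, good_le hn2 hβ h1 hK (by linarith)⟩
  · rcases (by omega : n = 2 ∨ n = 3 ∨ n = 4 ∨ 5 ≤ n) with rfl | rfl | rfl | h5
    · have hk4 : (4:ℝ) ≤ k := by exact_mod_cast (by omega : 4 ≤ k)
      push_cast at hK ⊢
      exact ⟨_, good_two hK (by linarith)⟩
    · push_cast at hK ⊢
      exact ⟨_, good_three hK (by linarith)⟩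
    · push_cast at hK ⊢
      exact ⟨_, good_four h1 hK⟩
    · have h5' : (5:ℝ) ≤ n := by exact_mod_cast h5
      exact ⟨_, good_five h5' h1 hK⟩

end Pool.Agent.N811.SP
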