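import Pool.Agent.N811.SP.Real2
import Pool.Agent.N811.SP.Conc

set_option autoImplicit false

/-! Real inequalities, part 3: the curve. -/

namespace Pool.Agent.N811.SP

/-- the tangency point -/
lemma exists_y {n β K σ Q : ℝ} (h : Good n β K σ) (hQ0 : 0 < Q) (hQ1 : Q < 1) :
    ∃ y, 0 < y ∧ (1 - 1 / n) * β * y < 1 ∧ Q * (1 + (1 - 1 / n) * y) ^ (1 + β) = K * y := by
  have hn := h.hn
  have hβ := h.hβ
  have hK0 : 0 < K := by rw [← h.hK]; exact Real.rpow_pos_of_pos (by linarith) _
  have hm : 0 < 1 - 1 / n := by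
    have : 1 / n ≤ 1 / 2 := by gcongr
    linarith
  have c2 := h.c2
  set m := 1 - 1 / n with hmdef
  set p := m * β with hp
  have hp0 : 0 < p := by positivity
  set φ : ℝ → ℝ := fun y => K * y - Q * (1 + m * y) ^ (1 + β) with hφ
  have hcont : ContinuousOn φ (Set.Icc 0 (1 / p)) := by
    intro y hy
    have : 0 < 1 + m * y := by have := hy.1; positivity
    apply ContinuousAt.continuousWithinAt
    refine (continuousAt_const.mul continuousAt_id).sub (continuousAt_const.mul ?_)
    exact ContinuousAt.rpow_const (by fun_prop) (Or.inl this.ne')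
  have h0 : φ 0 < 0 := by simp [hφ, hQ0]
  have h1 : 0 < φ (1 / p) := by
    simp only [hφ]
    have e1 : m * (1 / p) = m / p := by ring
    rw [e1]
    have : Q * (1 + m / p) ^ (1 + β) ≤ Q * (K / p) := mul_le_mul_of_nonneg_left c2 hQ0.le
    have h3 : Q * (K / p) < 1 * (K / p) := mul_lt_mul_of_pos_right hQ1 (by positivity)
    have e2 : K * (1 / p) = K / p := by ring
    linarith
  obtain ⟨y, hy, hy0⟩ := intermediate_value_Ioo (by positivity) hcont ⟨h0, h1⟩
  refine ⟨y, hy.1, ?_, ?_⟩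
  · have := hy.2
    rw [lt_div_iff₀ hp0] at this
    linarith
  · simp only [hφ] at hy0
    linarith

/-- sign of `Q (1 + m y)^(1+β) - K y` on both sides of the tangency point -/
lemma sign_y {n β K σ Q : ℝ} (h : Good n β K σ) (hQ0 : 0 < Q) (hQ1 : Q < 1) {y₁ : ℝ}
    (hy0 : 0 < y₁) (hpy : (1 - 1 / n) * β * y₁ < 1)
    (hy : Q * (1 + (1 - 1 / n) * y₁) ^ (1 + β) = K * y₁) :
    (∀ y, 0 ≤ y → y ≤ y₁ → K * y ≤ Q * (1 + (1 - 1 / n) * y) ^ (1 + β)) ∧
    (∀ y, y₁ ≤ y → y ≤ n → Q * (1 + (1 - 1 / n) * y) ^ (1 + β) ≤ K * y) ∧ y₁ < n := by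
  have hn := h.hn
  have hβ := h.hβ
  have hK := h.hK
  have hn0 : 0 < n := by linarith
  have hK0 : 0 < K := by rw [← hK]; exact Real.rpow_pos_of_pos (by linarith) _
  have hm : 0 < 1 - 1 / n := by
    have : 1 / n ≤ 1 / 2 := by gcongr
    linarith
  have hyn : y₁ < n := by
    have h1 := h.hnp
    have e : (1 - 1 / n) * β * y₁ = (n - 1) * β * y₁ / n := by field_simp
    rw [e, div_lt_one (by linarith)] at hpy
    linarith [mul_le_mul_of_nonneg_right h1 hy0.le]
  have hmn : 1 + (1 - 1 / n) * n = n := by field_simp; ring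
  set m := 1 - 1 / n with hmdef
  set g : ℝ → ℝ := fun y => Q * (1 + m * y) ^ (1 + β) - K * y with hg
  have hgn : g n < 0 := by
    simp only [hg]
    rw [hmn, Real.rpow_add hn0, Real.rpow_one, hK]
    have : Q * (n * K) < 1 * (n * K) := mul_lt_mul_of_pos_right hQ1 (by positivity)
    linarith
  have hg1 : g y₁ = 0 := by simp only [hg]; linarith
  have hcv := (convexOn_rpow (by linarith : (1:ℝ) ≤ 1 + β)).2
  have conv : ∀ x y θ : ℝ, 0 ≤ x → 0 ≤ y → 0 ≤ θ → θ ≤ 1 →
      g ((1 - θ) * x + θ * y) ≤ (1 - θ) * g x + θ * g y := by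
    intro x y θ hx hy hθ0 hθ1
    have h1 := hcv (x := 1 + m * x) (by simp only [Set.mem_Ici]; positivity) (y := 1 + m * y)
      (by simp only [Set.mem_Ici]; positivity) (a := 1 - θ) (b := θ) (by linarith) hθ0 (by ring)
    simp only [smul_eq_mul] at h1
    have e1 : (1 - θ) * (1 + m * x) + θ * (1 + m * y) = 1 + m * ((1 - θ) * x + θ * y) := by ring
    rw [e1] at h1
    simp only [hg]
    have := mul_le_mul_of_nonneg_left h1 hQ0.le
    nlinarith
  refine ⟨fun y hy0' hy1 => ?_, fun y hy1 hy2 => ?_, hyn⟩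
  · rcases hy1.eq_or_lt with rfl | hlt
    · linarith
    · have hd : 0 < n - y := by linarith
      set θ := (y₁ - y) / (n - y) with hθ
      have hθ0 : 0 < θ := div_pos (by linarith) hd
      have hθ1 : θ < 1 := by rw [hθ, div_lt_one hd]; linarith
      have e : (1 - θ) * y + θ * n = y₁ := by
        have : θ * (n - y) = y₁ - y := by rw [hθ]; exact div_mul_cancel₀ _ hd.ne'
        linarith
      have := conv y n θ hy0' hn0.le hθ0.le hθ1.le
      rw [e, hg1] at this
      have h2 : 0 ≤ (1 - θ) * g y := by nlinarith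
      have h3 : 0 ≤ g y := nonneg_of_mul_nonneg_right h2 (by linarith)
      simp only [hg] at h3
      linarith
  · have hd : 0 < n - y₁ := by linarith
    set θ := (y - y₁) / (n - y₁) with hθ
    have hθ0 : 0 ≤ θ := div_nonneg (by linarith) hd.le
    have hθ1 : θ ≤ 1 := by rw [hθ, div_le_one hd]; linarith
    have e : (1 - θ) * y₁ + θ * n = y := by
      have : θ * (n - y₁) = y - y₁ := by rw [hθ]; exact div_mul_cancel₀ _ hd.ne'
      linarith
    have := conv y₁ n θ hy0.le hn0.le hθ0 hθ1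
    rw [e, hg1] at this
    have h3 : g y ≤ 0 := by nlinarith
    simp only [hg] at h3
    linarith

/-- `artanh` -/
noncomputable def La (B : ℝ) : ℝ := (Real.log (1 + B) - Real.log (1 - B)) / 2

noncomputable def De (K B : ℝ) : ℝ :=
  1 - ((1 + B) * Real.log (1 + B) + (1 - B) * Real.log (1 - B)) / (2 * K)

lemma hasDerivAt_La {B : ℝ} (h0 : -1 < B) (h1 : B < 1) : HasDerivAt La (1 / (1 - B ^ 2)) B := by
  have a1 : HasDerivAt (fun B : ℝ => 1 + B) 1 B := by simpa using (hasDerivAt_id B).const_add 1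
  have a2 : HasDerivAt (fun B : ℝ => 1 - B) (-1) B := by simpa using (hasDerivAt_id B).const_sub 1
  have b1 := a1.log (by linarith : (1:ℝ) + B ≠ 0)
  have b2 := a2.log (by linarith : (1:ℝ) - B ≠ 0)
  refine ((b1.sub b2).div_const 2).congr_deriv ?_
  have h2 : (1 + B) ≠ 0 := by linarith
  have h3 : (1 - B) ≠ 0 := by linarith
  have h4 : 1 - B ^ 2 ≠ 0 := by
    have : 1 - B ^ 2 = (1 - B) * (1 + B) := by ring
    rw [this]; exact mul_ne_zero h3 h2
  field_simp
  ring

lemma hasDerivAt_De {K B : ℝ} (h0 : -1 < B) (h1 : B < 1) :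
    HasDerivAt (De K) (-(La B / K)) B := by
  have a1 : HasDerivAt (fun B : ℝ => 1 + B) 1 B := by simpa using (hasDerivAt_id B).const_add 1
  have a2 : HasDerivAt (fun B : ℝ => 1 - B) (-1) B := by simpa using (hasDerivAt_id B).const_sub 1
  have h2 : (1 + B) ≠ 0 := by linarith
  have h3 : (1 - B) ≠ 0 := by linarith
  have b1 := a1.mul (a1.log h2)
  have b2 := a2.mul (a2.log h3)
  refine (((b1.add b2).div_const (2 * K)).const_sub 1).congr_deriv ?_
  unfold La
  field_simp
  ring

lemma Dx_eq {K x : ℝ} (hx : 0 < x) : Dx K x = De K (Real.tanh x) := by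
  have h0 := tanh_pos hx
  have h1 := Real.tanh_lt_one x
  have hmem : Real.tanh x ∈ Set.Icc (-1) 1 := ⟨by linarith, h1.le⟩
  have e1 : x = (Real.log (1 + Real.tanh x) - Real.log (1 - Real.tanh x)) / 2 := by
    have h3 := Real.artanh_tanh x
    rw [Real.artanh_eq_half_log hmem, Real.log_div (by linarith) (by linarith)] at h3
    linarith
  have e2 : Real.log (Real.cosh x) = -(Real.log (1 + Real.tanh x) + Real.log (1 - Real.tanh x)) / 2 := by
    have hc := Real.cosh_pos x
    rw [← Real.log_mul (by linarith) (by linarith)]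
    have h3 : (1 + Real.tanh x) * (1 - Real.tanh x) = (Real.cosh x ^ 2)⁻¹ := by
      rw [Real.tanh_eq_sinh_div_cosh]
      have := Real.cosh_sq x
      field_simp
      nlinarith
    rw [h3, Real.log_inv, Real.log_pow]
    push_cast
    ring
  unfold Dx W De
  rw [e2]
  set B := Real.tanh x
  rw [show x * B / K = ((Real.log (1 + B) - Real.log (1 - B)) / 2) * B / K by rw [← e1]]
  field_simp
  ring

end Pool.Agent.N811.SP
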