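import Pool.Agent.N811.SP.Real3

set_option autoImplicit false

/-! Real inequalities, part 4: comparison along the curve. -/

namespace Pool.Agent.N811.SP

lemma curve {n β K σ Q : ℝ} (h : Good n β K σ) (hQ0 : 0 < Q) (hQ1 : Q < 1) {y₁ : ℝ}
    (hy0 : 0 < y₁) (hpy : (1 - 1 / n) * β * y₁ < 1)
    (hy : Q * (1 + (1 - 1 / n) * y₁) ^ (1 + β) = K * y₁) :
    De K (√Q) ≤ (1 - y₁ / n) / ((1 + (1 - 1 / n) * y₁) ^ ((1 + β) / 2) *
      (1 - y₁ / n) ^ (((n - 1) * β + 1) / 2)) := by
  have hn := h.hn
  have hβ := h.hβ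
  have hn0 : 0 < n := by linarith
  have hK0 : 0 < K := by rw [← h.hK]; exact Real.rpow_pos_of_pos (by linarith) _
  have hm : 0 < 1 - 1 / n := by
    have : 1 / n ≤ 1 / 2 := by gcongr
    linarith
  obtain ⟨P1, -, hyn⟩ := sign_y h hQ0 hQ1 hy0 hpy hy
  have hts := fun (y : ℝ) (h0 : 0 ≤ y) (h1 : (1 - 1 / n) * β * y ≤ 1) => h.tstar h0 h1
  have hnm : n * (1 - 1 / n) = n - 1 := by field_simp
  set m := 1 - 1 / n with hmdef
  set p := m * β with hp
  have hp0 : 0 < p := by positivity
  set e₁ := ((n - 1) * β + 1) / 2 with he₁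
  have hpe : n * p = 2 * e₁ - 1 := by
    rw [he₁, hp, ← mul_assoc, hnm]; ring
  set v : ℝ → ℝ := fun y => 1 + m * y with hv
  set r : ℝ → ℝ := fun y => 1 - y / n with hr
  set a : ℝ → ℝ := fun y => v y ^ ((1 + β) / 2) with ha
  set b : ℝ → ℝ := fun y => r y ^ e₁ with hb
  set s : ℝ → ℝ := fun y => √(K * y) with hs
  have hv0 : ∀ y, 0 ≤ y → 0 < v y := fun y hy => by simp only [hv]; positivity
  have hr0 : ∀ y, y ≤ y₁ → 0 < r y := fun y hy => by
    simp only [hr]
    have : y / n < 1 := by rw [div_lt_one hn0]; linarith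
    linarith
  have ha0 : ∀ y, 0 ≤ y → 0 < a y := fun y hy => Real.rpow_pos_of_pos (hv0 y hy) _
  have hb0 : ∀ y, y ≤ y₁ → 0 < b y := fun y hy => Real.rpow_pos_of_pos (hr0 y hy) _
  have hs0 : ∀ y, 0 ≤ s y := fun y => Real.sqrt_nonneg _
  have hs2 : ∀ y, 0 ≤ y → s y ^ 2 = K * y := fun y hy => Real.sq_sqrt (by positivity)
  have ha2 : ∀ y, 0 ≤ y → a y ^ 2 = v y ^ (1 + β) := fun y hy => by
    simp only [ha]
    rw [← Real.rpow_natCast, ← Real.rpow_mul (hv0 y hy).le]
    congr 1; push_cast; ring
  set B : ℝ → ℝ := fun y => s y / a y with hB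
  have hBnn : ∀ y, 0 ≤ y → 0 ≤ B y := fun y hy => div_nonneg (hs0 y) (ha0 y hy).le
  have hB2 : ∀ y, 0 ≤ y → y ≤ y₁ → B y ^ 2 ≤ Q := fun y hy hy1 => by
    simp only [hB]
    rw [div_pow, hs2 y hy, ha2 y hy, div_le_iff₀ (Real.rpow_pos_of_pos (hv0 y hy) _)]
    exact P1 y hy hy1
  have hB1 : ∀ y, 0 ≤ y → y ≤ y₁ → B y < 1 := fun y hy hy1 => by
    have h1 := hB2 y hy hy1
    have h2 := hBnn y hy
    nlinarith
  -- derivatives
  have dv : ∀ y, HasDerivAt v m y := fun y => by
    refine (((hasDerivAt_id y).const_mul m).const_add 1).congr_deriv ?_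
    simp
  have dr : ∀ y, HasDerivAt r (-(1 / n)) y := fun y => by
    have := ((hasDerivAt_id y).div_const n).const_sub 1
    simpa using this
  have da : ∀ y, 0 ≤ y → HasDerivAt a (a y * ((1 + β) / 2 * m / v y)) y := fun y hy => by
    have h1 := hv0 y hy
    refine ((dv y).rpow_const (Or.inl h1.ne')).congr_deriv ?_
    rw [Real.rpow_sub_one h1.ne']
    simp only [ha]
    ring
  have db : ∀ y, y ≤ y₁ → HasDerivAt b (b y * (-(e₁ / (n * r y)))) y := fun y hy => by
    have h1 := hr0 y hy
    refine ((dr y).rpow_const (Or.inl h1.ne')).congr_deriv ?_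
    rw [Real.rpow_sub_one h1.ne']
    simp only [hb]
    field_simp
  have ds : ∀ y, 0 < y → HasDerivAt s (s y / (2 * y)) y := fun y hy => by
    have h1 : HasDerivAt (fun y => K * y) K y := by
      have := (hasDerivAt_id y).const_mul K
      simpa using this
    have h2 : 0 < s y := Real.sqrt_pos.2 (by positivity)
    refine (h1.sqrt (by positivity)).congr_deriv ?_
    have h3 := hs2 y hy.le
    change K / (2 * s y) = s y / (2 * y)
    rw [div_eq_div_iff (by positivity) (by positivity)]
    linear_combination -2 * h3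
  have dB : ∀ y, 0 < y → y ≤ y₁ →
      HasDerivAt B (s y * (1 - p * y) / (2 * a y * y * v y)) y := fun y hy hy1 => by
    have h1 := ha0 y hy.le
    have h2 := hv0 y hy.le
    refine ((ds y hy).div (da y hy.le) h1.ne').congr_deriv ?_
    have e : v y = 1 + m * y := rfl
    field_simp
    rw [e, hp]
    ring
  set Z : ℝ → ℝ := fun y => s y / b y with hZ
  have dZ : ∀ y, 0 < y → y ≤ y₁ →
      HasDerivAt Z (s y * (1 + p * y) / (2 * b y * y * r y)) y := fun y hy hy1 => by
    have h1 := hb0 y hy1
    have h2 := hr0 y hy1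
    refine ((ds y hy).div (db y hy1) h1.ne').congr_deriv ?_
    have e : n * r y = n - y := by simp only [hr]; field_simp
    have e2 : r y + 2 * e₁ / n * y = 1 + p * y := by
      have : p = (2 * e₁ - 1) / n := by rw [← hpe]; field_simp
      rw [this]
      simp only [hr]
      field_simp
      ring
    rw [← e2]
    field_simp
    ring
  have hcs : Continuous s := by simp only [hs]; fun_prop
  have hca : ContinuousOn a (Set.Icc 0 y₁) := fun y hy =>
    (da y hy.1).continuousAt.continuousWithinAt
  have hcb : ContinuousOn b (Set.Icc 0 y₁) := fun y hy =>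
    (db y hy.2).continuousAt.continuousWithinAt
  have hcB : ContinuousOn B (Set.Icc 0 y₁) :=
    hcs.continuousOn.div hca fun y hy => (ha0 y hy.1).ne'
  have hcZ : ContinuousOn Z (Set.Icc 0 y₁) :=
    hcs.continuousOn.div hcb fun y hy => (hb0 y hy.2).ne'
  have hcLa : ContinuousOn (fun y => La (B y)) (Set.Icc 0 y₁) := by
    intro y hy
    have h1 := (hasDerivAt_La (B := B y) (by linarith [hBnn y hy.1]) (hB1 y hy.1 hy.2)).continuousAt
    exact ContinuousAt.comp_continuousWithinAt (g := La) (f := B) h1 (hcB y hy)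
  have hcDe : ContinuousOn (fun y => De K (B y)) (Set.Icc 0 y₁) := by
    intro y hy
    have h1 := (hasDerivAt_De (K := K) (B := B y) (by linarith [hBnn y hy.1])
      (hB1 y hy.1 hy.2)).continuousAt
    exact ContinuousAt.comp_continuousWithinAt (g := De K) (f := B) h1 (hcB y hy)
  have hpy' : ∀ y, y ≤ y₁ → 0 < 1 - p * y := fun y hy1 => by
    have : p * y ≤ p * y₁ := mul_le_mul_of_nonneg_left hy1 hp0.le
    linarith
  -- first comparison
  have T1 : ∀ y, 0 ≤ y → y ≤ y₁ → Z y ≤ La (B y) := by
    have hmono : MonotoneOn (fun y => La (B y) - Z y) (Set.Icc 0 y₁) := by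
      have hd : ∀ y ∈ Set.Ioo 0 y₁, HasDerivAt (fun y => La (B y) - Z y)
          (1 / (1 - B y ^ 2) * (s y * (1 - p * y) / (2 * a y * y * v y)) -
            s y * (1 + p * y) / (2 * b y * y * r y)) y := fun y hy =>
        ((hasDerivAt_La (by linarith [hBnn y hy.1.le]) (hB1 y hy.1.le hy.2.le)).comp y
          (dB y hy.1 hy.2.le)).sub (dZ y hy.1 hy.2.le)
      refine monotoneOn_of_deriv_nonneg (convex_Icc 0 y₁) (hcLa.sub hcZ) ?_ ?_
      · intro y hy
        rw [interior_Icc] at hy
        exact (hd y hy).differentiableAt.differentiableWithinAt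
      · intro y hy
        rw [interior_Icc] at hy
        rw [(hd y hy).deriv]
        have hy00 : 0 < y := hy.1
        have hya := ha0 y hy.1.le
        have hyb := hb0 y hy.2.le
        have hyv := hv0 y hy.1.le
        have hyr := hr0 y hy.2.le
        have hys := hs0 y
        have hyp := hpy' y hy.2.le
        have hyp2 : 0 < 1 + p * y := by positivity
        have hyB := hB2 y hy.1.le hy.2.le
        have ht := hts y hy.1.le (by linarith)
        have e1 : (1 + m * y) ^ (1 + β) = a y ^ 2 := (ha2 y hy.1.le).symm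
        have e2 : (1 + m * y) ^ ((β - 1) / 2) = a y / v y := by
          have : (β - 1) / 2 = (1 + β) / 2 - 1 := by ring
          rw [this]
          exact Real.rpow_sub_one hyv.ne' _
        have e3 : (1 - y / n) ^ (((n - 1) * β + 3) / 2) = b y * r y := by
          have : ((n - 1) * β + 3) / 2 = e₁ + 1 := by rw [he₁]; ring
          rw [this]
          exact Real.rpow_add_one hyr.ne' _
        rw [e1, e2, e3, ← hs2 y hy.1.le] at ht
        -- ht : a^2 ≤ s^2 + a/v * (b r) * ((1-py)/(1+py))
        have hmain : (1 + p * y) * v y * (a y ^ 2 - s y ^ 2) ≤ (1 - p * y) * (a y * b y * r y) := by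
          have h1 : a y ^ 2 - s y ^ 2 ≤ a y / v y * (b y * r y) * ((1 - p * y) / (1 + p * y)) := by
            linarith
          have h2 := mul_le_mul_of_nonneg_left h1 (by positivity : 0 ≤ (1 + p * y) * v y)
          refine h2.trans (le_of_eq ?_)
          field_simp
        have hden : 0 < a y ^ 2 - s y ^ 2 := by
          have h1 : B y ^ 2 < 1 := by linarith
          simp only [hB] at h1
          rw [div_pow, div_lt_one (by positivity)] at h1
          linarith
        have e4 : 1 / (1 - B y ^ 2) * (s y * (1 - p * y) / (2 * a y * y * v y)) =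
            s y / (2 * y) * ((1 - p * y) * a y / (v y * (a y ^ 2 - s y ^ 2))) := by
          have : 1 - B y ^ 2 = (a y ^ 2 - s y ^ 2) / a y ^ 2 := by
            simp only [hB]; field_simp
          rw [this]
          field_simp
        have e5 : s y * (1 + p * y) / (2 * b y * y * r y) =
            s y / (2 * y) * ((1 + p * y) / (b y * r y)) := by
          field_simp
        rw [e4, e5, ← mul_sub]
        apply mul_nonneg (by positivity)
        rw [sub_nonneg, div_le_div_iff₀ (by positivity) (by positivity)]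
        nlinarith [hmain]
    intro y hy0' hy1
    have h1 := hmono ⟨le_rfl, hy0.le⟩ ⟨hy0', hy1⟩ hy0'
    have e0 : La (B 0) - Z 0 = 0 := by
      have : s 0 = 0 := by simp [hs]
      simp [hB, hZ, this, La]
    simp only [e0] at h1
    linarith
  -- second comparison
  set E : ℝ → ℝ := fun y => r y / (a y * b y) with hE
  have hcE : ContinuousOn E (Set.Icc 0 y₁) := by
    refine ContinuousOn.div ?_ (hca.mul hcb) fun y hy =>
      mul_ne_zero (ha0 y hy.1).ne' (hb0 y hy.2).ne'
    exact fun y _ => (dr y).continuousAt.continuousWithinAt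
  have hmono : MonotoneOn (fun y => E y - De K (B y)) (Set.Icc 0 y₁) := by
    have hd : ∀ y ∈ Set.Ioo 0 y₁, HasDerivAt (fun y => E y - De K (B y))
        (-((1 - p * y) / (2 * (a y * b y) * v y)) -
          -(La (B y) / K) * (s y * (1 - p * y) / (2 * a y * y * v y))) y := by
      intro y hy
      have hya := ha0 y hy.1.le
      have hyb := hb0 y hy.2.le
      have hyv := hv0 y hy.1.le
      have hyr := hr0 y hy.2.le
      have d1 : HasDerivAt E (-((1 - p * y) / (2 * (a y * b y) * v y))) y := by
        refine ((dr y).div ((da y hy.1.le).mul (db y hy.2.le))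
          (mul_ne_zero hya.ne' hyb.ne')).congr_deriv ?_
        simp only [Pi.mul_apply]
        have e1 : v y = 1 + m * y := rfl
        have e2 : 2 * v y * (e₁ - 1) / n - m * (1 + β) * r y = -(1 - p * y) := by
          have e3 : e₁ = (n * p + 1) / 2 := by linarith
          rw [e3, e1]
          simp only [hr, hp, hmdef]
          field_simp
          ring
        have e4 : -(1 / n) * (a y * b y) - r y * (a y * ((1 + β) / 2 * m / v y) * b y +
            a y * (b y * (-(e₁ / (n * r y))))) =
            a y * b y / (2 * v y) * (2 * v y * (e₁ - 1) / n - m * (1 + β) * r y) := by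
          field_simp
          ring
        rw [e4, e2]
        field_simp
      exact d1.sub ((hasDerivAt_De (K := K) (by linarith [hBnn y hy.1.le])
        (hB1 y hy.1.le hy.2.le)).comp y (dB y hy.1 hy.2.le))
    refine monotoneOn_of_deriv_nonneg (convex_Icc 0 y₁) (hcE.sub hcDe) ?_ ?_
    · intro y hy
      rw [interior_Icc] at hy
      exact (hd y hy).differentiableAt.differentiableWithinAt
    · intro y hy
      rw [interior_Icc] at hy
      rw [(hd y hy).deriv]
      have hy00 : 0 < y := hy.1
      have hya := ha0 y hy.1.le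
      have hyb := hb0 y hy.2.le
      have hyv := hv0 y hy.1.le
      have hyr := hr0 y hy.2.le
      have hys := hs0 y
      have hyp := hpy' y hy.2.le
      have hT := T1 y hy.1.le hy.2.le
      have h1 : Z y / K * (s y * (1 - p * y) / (2 * a y * y * v y)) ≤
          La (B y) / K * (s y * (1 - p * y) / (2 * a y * y * v y)) := by
        gcongr
      have h2 : Z y / K * (s y * (1 - p * y) / (2 * a y * y * v y)) =
          (1 - p * y) / (2 * (a y * b y) * v y) := by
        simp only [hZ]
        have h3 := hs2 y hy.1.le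
        field_simp
        rw [h3]
      linarith
  have hfin := hmono ⟨le_rfl, hy0.le⟩ ⟨hy0.le, le_rfl⟩ hy0.le
  have e0 : E 0 - De K (B 0) = 0 := by
    have h1 : s 0 = 0 := by simp [hs]
    have h2 : r 0 = 1 := by simp [hr]
    have h3 : v 0 = 1 := by simp [hv]
    simp [hE, hB, h1, ha, hb, h2, h3, De]
  have eB : B y₁ = √Q := by
    have h1 : B y₁ ^ 2 = Q := by
      simp only [hB]
      rw [div_pow, hs2 y₁ hy0.le, ha2 y₁ hy0.le, ← hy]
      have := (Real.rpow_pos_of_pos (hv0 y₁ hy0.le) (1 + β)).ne'
      exact mul_div_cancel_right₀ _ this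
    rw [← h1, Real.sqrt_sq (hBnn y₁ hy0.le)]
  simp only [e0] at hfin
  rw [eB] at hfin
  have : De K √Q ≤ E y₁ := by linarith
  exact this

end Pool.Agent.N811.SP
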